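import Mathlib

/-!
Definitions and the statements of the three jobs for MP_ef3a35_an.
-/

namespace Pool.Agent.R199.CE

/-- The critical orbit of `g(x) = 1 - μ x^2`: `xo μ 0 = 0`, `xo μ (n+1) = 1 - μ (xo μ n)^2`. -/
noncomputable def xo (μ : ℝ) : ℕ → ℝ
  | 0 => 0
  | n + 1 => 1 - μ * (xo μ n) ^ 2

/-- number of letters `true` (= R) among `e 1, ..., e n` -/
def cnt (e : ℕ → Bool) (n : ℕ) : ℕ := ((Finset.Icc 1 n).filter (fun i => e i = true)).card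

/-- `r` is exactly the length of agreement between `e 1, e 2, ...` and `e (n+1), e (n+2), ...` -/
def Agr (e : ℕ → Bool) (n r : ℕ) : Prop :=
  (∀ i, 1 ≤ i → i ≤ r → e (n + i) = e i) ∧ e (n + (r + 1)) ≠ e (r + 1)

/-- Job I (combinatorics): the kneading sequence. -/
def JobComb : Prop :=
  ∃ (e : ℕ → Bool) (R p : ℕ → ℕ),
    e 1 = true ∧ (∀ n, 2 ≤ n → n ≤ 41 → e n = false) ∧ e 42 = true ∧
    (∀ n, 1 ≤ n → Agr e n (R n) ∧ Odd (cnt e (R n + 1))) ∧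
    (∀ i, 8 * (∑ j ∈ (Finset.Icc 1 i).filter (fun j => 4 ≤ R j), (R j + 1)) ≤ i) ∧
    StrictMono p ∧ (∀ k, 1 ≤ p k) ∧
    (∀ k n, 1 ≤ n → p k ≤ R (n * p (k + 1))) ∧
    (∀ k, p k ≤ R (64 * p k))

/-- Job II (realization of the kneading sequence in the quadratic family). -/
def JobReal : Prop :=
  ∀ (e : ℕ → Bool) (R : ℕ → ℕ), e 1 = true → e 2 = false → (∃ n, 3 ≤ n ∧ e n = true) →
    (∀ n, 1 ≤ n → Agr e n (R n) ∧ Odd (cnt e (R n + 1))) →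
    ∃ μ : ℝ, 1 < μ ∧ μ < 2 ∧
      ∀ n, 1 ≤ n → (e n = true → 0 < xo μ n) ∧ (e n = false → xo μ n < 0)

/-- Job III (expansion). -/
def JobExp : Prop :=
  ∀ (e : ℕ → Bool) (R : ℕ → ℕ) (μ : ℝ), 1 < μ → μ < 2 →
    e 1 = true → (∀ n, 2 ≤ n → n ≤ 41 → e n = false) →
    (∀ n, 1 ≤ n → Agr e n (R n)) →
    (∀ i, 8 * (∑ j ∈ (Finset.Icc 1 i).filter (fun j => 4 ≤ R j), (R j + 1)) ≤ i) →
    (∀ n, 1 ≤ n → (e n = true → 0 < xo μ n) ∧ (e n = false → xo μ n < 0)) →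
    (∀ n, (7 : ℝ) ^ n ≤ (∏ j ∈ Finset.Icc 1 n, (2 * μ * |xo μ j|)) ^ 4) ∧
    (∀ δ : ℝ, 0 < δ → ∃ l : ℕ, ∀ j, 1 ≤ j → l ≤ R j → |xo μ j| < δ)

end Pool.Agent.R199.CE
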