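import Mathlib
import Pool.Agent.R199.CE.Defs

/-! # A Toeplitz kneading sequence (helper784) -/

set_option autoImplicit false

namespace Pool.Agent.R199.CE.CombJob

namespace Comb

inductive Ltr
  | A
  | C
  | B
  deriving DecidableEq

open Ltr

/-- the substitution rule. -/
def tau (X : Ltr) (n : ℕ) : Ltr :=
  if n = 0 then A else if n = 1 ∧ X = A then C else if n = 64 ∧ (X = A ∨ X = C) then A else B

def q (k : ℕ) : ℕ := 2 ^ (k + 7)

def p : ℕ → ℕ
  | 0 => 42
  | k + 1 => q k * p k

def w : ℕ → Ltr → ℕ → Bool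
  | 0, A, i => decide (i = 0 ∨ i = 41)
  | 0, C, _ => true
  | 0, B, i => !(decide (i = 2 ∨ i = 3))
  | k + 1, X, i => w k (tau X (i / p k)) (i % p k)

lemma q_ge (k : ℕ) : 128 ≤ q k := by
  unfold q
  calc 128 = 2 ^ 7 := by norm_num
    _ ≤ 2 ^ (k + 7) := Nat.pow_le_pow_right (by norm_num) (by omega)

def s (k n : ℕ) : Ltr :=
  if h : n = 0 then A else tau (s (k + 1) (n / q k)) (n % q k)
termination_by n
decreasing_by exact Nat.div_lt_self (Nat.pos_of_ne_zero h) (by have := q_ge k; omega)

lemma tau_zero (X : Ltr) : tau X 0 = A := by simp [tau]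

lemma s_zero (k : ℕ) : s k 0 = A := by rw [s]; simp

lemma s_eq (k n : ℕ) : s k n = tau (s (k + 1) (n / q k)) (n % q k) := by
  by_cases h : n = 0
  · subst h
    rw [s_zero, Nat.zero_mod, tau_zero]
  · rw [s, dif_neg h]

lemma p_pos (k : ℕ) : 42 ≤ p k := by
  induction k with
  | zero => simp [p]
  | succ k ih =>
    rw [p]
    have := q_ge k
    nlinarith

/-- the kneading sequence. -/
def kappa (j : ℕ) : Bool := w 0 (s 0 (j / 42)) (j % 42)

lemma block (k : ℕ) : ∀ j, kappa j = w k (s k (j / p k)) (j % p k) := by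
  induction k with
  | zero => intro j; rfl
  | succ k ih =>
    intro j
    rw [ih j, w, s_eq k]
    have h1 : j % p (k + 1) / p k = j / p k % q k := by
      rw [p, mul_comm, Nat.mod_mul_right_div_self]
    have h2 : j % p (k + 1) % p k = j % p k := by
      rw [p, Nat.mod_mod_of_dvd _ (Dvd.intro_left _ rfl)]
    have h3 : j / p (k + 1) = j / p k / q k := by
      rw [p, mul_comm, Nat.div_div_eq_div_mul]
    rw [h1, h2, h3]

lemma kappa_block (k a b : ℕ) (hb : b < p k) : kappa (a * p k + b) = w k (s k a) b := by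
  have h0 := p_pos k
  rw [block k, show (a * p k + b) / p k = a by
    rw [mul_comm, Nat.mul_add_div (by omega), Nat.div_eq_of_lt hb, add_zero],
    show (a * p k + b) % p k = b by
    rw [mul_comm, Nat.mul_add_mod, Nat.mod_eq_of_lt hb]]

lemma kappa_small (k b : ℕ) (hb : b < p k) : kappa b = w k A b := by
  have := kappa_block k 0 b hb
  rwa [zero_mul, zero_add, s_zero] at this

lemma w_block (k : ℕ) (X : Ltr) (a b : ℕ) (hb : b < p k) :
    w (k + 1) X (a * p k + b) = w k (tau X a) b := by
  have h0 := p_pos k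
  rw [w, show (a * p k + b) / p k = a by
    rw [mul_comm, Nat.mul_add_div (by omega), Nat.div_eq_of_lt hb, add_zero],
    show (a * p k + b) % p k = b by
    rw [mul_comm, Nat.mul_add_mod, Nat.mod_eq_of_lt hb]]

lemma s_mul (k a : ℕ) : s k (a * q k) = A := by
  rw [s_eq, Nat.mul_mod_left, tau_zero]

lemma s_one (k : ℕ) : s k 1 = C := by
  have := q_ge k
  rw [s_eq, Nat.div_eq_of_lt (by omega), Nat.mod_eq_of_lt (by omega), s_zero]
  rfl

lemma s_64 (k : ℕ) : s k 64 = A := by
  have := q_ge k
  rw [s_eq, Nat.div_eq_of_lt (by omega), Nat.mod_eq_of_lt (by omega), s_zero]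
  rfl

lemma tau_eq_A {X : Ltr} {n : ℕ} (h : tau X n = A) (hn : n ≠ 0) : n = 64 := by
  unfold tau at h
  rw [if_neg hn] at h
  split_ifs at h with h1 h2
  exact h2.1

lemma tau_65 (X : Ltr) : tau X 65 = B := by
  simp [tau]

lemma s_next {k n : ℕ} (h : s k n = A) (hn : n % q k ≠ 0) : n % q k = 64 ∧ s k (n + 1) = B := by
  have h0 := q_ge k
  rw [s_eq] at h
  have h1 := tau_eq_A h hn
  refine ⟨h1, ?_⟩
  rw [s_eq, show (n + 1) % q k = 65 by
    rw [Nat.add_mod, h1, Nat.mod_eq_of_lt (show 1 < q k by omega), Nat.mod_eq_of_lt (by omega)],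
    tau_65]

/-! ### Comparison numbers -/

mutual
def al : ℕ → ℕ
  | 0 => 1
  | k + 1 => p k + de k
def de : ℕ → ℕ
  | 0 => 2
  | k + 1 => 64 * p k + al k
end

lemma al_de (k : ℕ) : al k + 1 ≤ p k ∧ de k + 1 ≤ p k := by
  induction k with
  | zero => simp [al, de, p]
  | succ k ih =>
    have h1 := q_ge k
    have h2 : 128 * p k ≤ q k * p k := Nat.mul_le_mul_right _ h1
    rw [al, de, p]
    omega

/-- number of letters. -/
def c (k : ℕ) (X : Ltr) (i : ℕ) : ℕ := Nat.count (fun t => w k X t = true) i

lemma count_congr' {P Q : ℕ → Prop} [DecidablePred P] [DecidablePred Q] {b : ℕ}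
    (h : ∀ t < b, P t ↔ Q t) : Nat.count P b = Nat.count Q b := by
  rw [Nat.count_eq_card_filter_range, Nat.count_eq_card_filter_range]
  congr 1
  refine Finset.filter_congr fun t ht => h t (Finset.mem_range.1 ht)

lemma c_block (k : ℕ) (X : Ltr) (a b : ℕ) (hb : b ≤ p k) :
    c (k + 1) X (a * p k + b) = c (k + 1) X (a * p k) + c k (tau X a) b := by
  unfold c
  rw [Nat.count_add]
  congr 1
  refine count_congr' fun t ht => ?_
  rw [w_block k X a t (by omega)]

lemma c_even (k : ℕ) : ∀ X, Even (c k X (p k)) := by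
  induction k with
  | zero => intro X; cases X <;> decide
  | succ k ih =>
    intro X
    have : ∀ a, Even (c (k + 1) X (a * p k)) := by
      intro a
      induction a with
      | zero => simp [c]
      | succ a iha =>
        rw [add_mul, one_mul, c_block k X a (p k) le_rfl]
        exact iha.add (ih _)
    rw [p]
    exact this _

lemma c_even' (k : ℕ) (X : Ltr) (a : ℕ) : Even (c (k + 1) X (a * p k)) := by
  induction a with
  | zero => simp [c]
  | succ a iha =>
    rw [add_mul, one_mul, c_block k X a (p k) le_rfl]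
    exact iha.add (c_even k _)

lemma c_odd (k : ℕ) (X : Ltr) (a b : ℕ) (hb : b ≤ p k) (h : Odd (c k (tau X a) b)) :
    Odd (c (k + 1) X (a * p k + b)) := by
  rw [c_block k X a b hb]
  exact (c_even' k X a).add_odd h

structure G (k : ℕ) : Prop where
  a1 : ∀ i < al k, w k A i = w k B i ∧ w k A i = w k C i
  a2 : w k A (al k) ≠ w k B (al k) ∧ w k A (al k) ≠ w k C (al k)
  a3 : Odd (c k A (al k + 1))
  b1 : ∀ i < de k, w k C i = w k B i
  b2 : w k C (de k) ≠ w k B (de k)
  b3 : Odd (c k C (de k + 1))

lemma tau_CB {a : ℕ} (h : a ≠ 64) : tau C a = tau B a := by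
  unfold tau
  simp [h]

lemma hG (k : ℕ) : G k := by
  induction k with
  | zero =>
    refine ⟨?_, ?_, ?_, ?_, ?_, ?_⟩
    · intro i hi
      simp only [al] at hi
      interval_cases i
      decide
    · simp only [al]; decide
    · simp only [al]; decide
    · intro i hi
      simp only [de] at hi
      interval_cases i <;> decide
    · simp only [de]; decide
    · simp only [de]; decide
  | succ k ih =>
    have hp := p_pos k
    obtain ⟨h1, h2⟩ := al_de k
    have e0 : ∀ X i, i < p k → w (k + 1) X i = w k A i := by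
      intro X i hi
      have := w_block k X 0 i hi
      rwa [zero_mul, zero_add, tau_zero] at this
    have e1 : ∀ X b, b < p k → w (k + 1) X (p k + b) = w k (tau X 1) b := by
      intro X b hb
      have := w_block k X 1 b hb
      rwa [one_mul] at this
    have t1 : tau A 1 = C := rfl
    have t2 : tau B 1 = B := rfl
    have t3 : tau C 1 = B := rfl
    have t4 : tau C 64 = A := rfl
    have t5 : tau B 64 = B := rfl
    refine ⟨?_, ?_, ?_, ?_, ?_, ?_⟩
    · intro i hi
      rw [al] at hi
      by_cases hip : i < p k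
      · rw [e0 A i hip, e0 B i hip, e0 C i hip]
        exact ⟨rfl, rfl⟩
      · obtain ⟨b, rfl⟩ : ∃ b, i = p k + b := ⟨i - p k, by omega⟩
        rw [e1 A b (by omega), e1 B b (by omega), e1 C b (by omega), t1, t2, t3]
        exact ⟨ih.b1 b (by omega), ih.b1 b (by omega)⟩
    · rw [al, e1 A _ (by omega), e1 B _ (by omega), e1 C _ (by omega), t1, t2, t3]
      exact ⟨ih.b2, ih.b2⟩
    · rw [al]
      have := c_odd k A 1 (de k + 1) (by omega) (by rw [t1]; exact ih.b3)
      rwa [one_mul, ← add_assoc] at this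
    · intro i hi
      rw [de] at hi
      obtain ⟨a, b, hb, rfl⟩ : ∃ a b, b < p k ∧ i = a * p k + b :=
        ⟨i / p k, i % p k, Nat.mod_lt _ (by omega), by
          rw [mul_comm]; exact (Nat.div_add_mod i (p k)).symm⟩
      rw [w_block k C a b hb, w_block k B a b hb]
      by_cases ha : a = 64
      · subst ha
        rw [t4, t5]
        exact (ih.a1 b (by omega)).1
      · rw [tau_CB ha]
    · rw [de, w_block k C 64 _ (by omega), w_block k B 64 _ (by omega), t4, t5]
      exact ih.a2.1
    · rw [de]
      have := c_odd k C 64 (al k + 1) (by omega) (by rw [t4]; exact ih.a3)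
      rwa [← add_assoc] at this

/-- number of letters of the sequence. -/
def ck (i : ℕ) : ℕ := Nat.count (fun t => kappa t = true) i

lemma ck_small (k b : ℕ) (hb : b ≤ p k) : ck b = c k A b := by
  unfold ck c
  exact count_congr' fun t ht => by rw [kappa_small k t (by omega)]

lemma ck_next (k b : ℕ) (hb : b ≤ p k) : ck (p k + b) = c k A (p k) + c k C b := by
  have h1 : ck (p k + b) = ck (p k) + Nat.count (fun t => kappa (p k + t) = true) b := by
    unfold ck
    rw [Nat.count_add]
  rw [h1, ck_small k (p k) le_rfl]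
  congr 1
  unfold c
  refine count_congr' fun t ht => ?_
  have := kappa_block k 1 t (by omega)
  rw [one_mul, s_one] at this
  rw [this]

/-- agreement. -/
def Ag (n r : ℕ) : Prop := (∀ i < r, kappa (n + i) = kappa i) ∧ kappa (n + r) ≠ kappa r

lemma kappa_mul42 (a : ℕ) : kappa (42 * a) = true := by
  have := kappa_block 0 a 0 (by simp [p])
  rw [add_zero, show p 0 = 42 from rfl, mul_comm] at this
  rw [this]
  cases s 0 a <;> rfl

lemma exists_ret (n : ℕ) (hn : 1 ≤ n) : ∃ r, Ag n r ∧ Odd (ck (r + 1)) ∧
    (r ≤ 3 ∨ (∃ k, p (k + 1) ∣ n ∧ r + 1 ≤ 2 * p k) ∨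
      (∃ k, p k ∣ n ∧ n / p k % q k = 64 ∧ r + 1 ≤ 2 * p k)) := by
  have k0 : kappa 0 = true := by decide +kernel
  have k1 : kappa 1 = false := by decide +kernel
  have k2 : kappa 2 = false := by decide +kernel
  have k3 : kappa 3 = false := by decide +kernel
  have c1 : Odd (ck 1) := by decide +kernel
  have c2 : Odd (ck 2) := by decide +kernel
  have c4 : Odd (ck 4) := by decide +kernel
  by_cases h42 : 42 ∣ n
  · -- multiples of 42
    obtain ⟨k, hk, hk'⟩ : ∃ k, p k ∣ n ∧ ¬ p (k + 1) ∣ n := by
      by_contra hcon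
      push Not at hcon
      have hall : ∀ k, p k ∣ n := by
        intro k
        induction k with
        | zero => exact h42
        | succ k ih => exact hcon k ih
      have hlt : ∀ k, k < p k := by
        intro k
        induction k with
        | zero => simp [p]
        | succ k ih =>
          rw [p]
          have := q_ge k
          nlinarith
      have h1 := Nat.le_of_dvd (by omega) (hall n)
      have h2 := hlt n
      omega
    obtain ⟨a, rfl⟩ := hk
    have hp := p_pos k
    have hq := q_ge k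
    obtain ⟨h1, h2⟩ := al_de k
    have hGk := hG k
    have ha : a % q k ≠ 0 := by
      intro h
      apply hk'
      rw [p, mul_comm (p k) a]
      exact Nat.mul_dvd_mul_right (Nat.dvd_of_mod_eq_zero h) _
    have hb : ∀ b < p k, kappa (p k * a + b) = w k (s k a) b := fun b hb => by
      rw [mul_comm]; exact kappa_block k a b hb
    by_cases hX : s k a = A
    · obtain ⟨h64, hB⟩ := s_next hX ha
      refine ⟨p k + de k, ⟨?_, ?_⟩, ?_, ?_⟩
      · intro i hi
        by_cases hip : i < p k
        · rw [hb i hip, hX, kappa_small k i hip]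
        · obtain ⟨b, rfl⟩ : ∃ b, i = p k + b := ⟨i - p k, by omega⟩
          have e1 : p k * a + (p k + b) = (a + 1) * p k + b := by ring
          rw [e1, kappa_block k (a + 1) b (by omega), hB]
          have e2 := kappa_block k 1 b (by omega)
          rw [one_mul, s_one] at e2
          rw [e2]
          exact (hGk.b1 b (by omega)).symm
      · have e1 : p k * a + (p k + de k) = (a + 1) * p k + de k := by ring
        rw [e1, kappa_block k (a + 1) _ (by omega), hB]
        have e2 := kappa_block k 1 (de k) (by omega)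
        rw [one_mul, s_one] at e2
        rw [e2]
        exact hGk.b2.symm
      · rw [add_assoc, ck_next k _ (by omega)]
        exact (c_even k A).add_odd hGk.b3
      · right; right
        refine ⟨k, Dvd.intro _ rfl, ?_, by omega⟩
        rw [Nat.mul_div_cancel_left _ (by omega)]
        exact h64
    · have hval : (∀ i < al k, w k A i = w k (s k a) i) ∧ w k A (al k) ≠ w k (s k a) (al k) := by
        cases h : s k a with
        | A => exact absurd h hX
        | B => exact ⟨fun i hi => (hGk.a1 i hi).1, hGk.a2.1⟩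
        | C => exact ⟨fun i hi => (hGk.a1 i hi).2, hGk.a2.2⟩
      refine ⟨al k, ⟨?_, ?_⟩, ?_, ?_⟩
      · intro i hi
        rw [hb i (by omega), kappa_small k i (by omega), hval.1 i hi]
      · rw [hb _ (by omega), kappa_small k _ (by omega)]
        exact hval.2.symm
      · rw [ck_small k _ (by omega)]
        exact hGk.a3
      · rcases Nat.eq_zero_or_pos k with rfl | hk0
        · left; simp [al]
        · right; left
          obtain ⟨k', rfl⟩ : ∃ k', k = k' + 1 := ⟨k - 1, by omega⟩
          have := al_de k'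
          refine ⟨k', Dvd.intro _ rfl, ?_⟩
          rw [al]
          omega
  · -- other times
    obtain ⟨a, b, hb1, hb2, rfl⟩ : ∃ a b, 1 ≤ b ∧ b ≤ 41 ∧ n = 42 * a + b := by
      refine ⟨n / 42, n % 42, ?_, ?_, ?_⟩ <;> omega
    have hv : ∀ j, j < 42 → kappa (42 * a + j) = w 0 (s 0 a) j := by
      intro j hj
      rw [mul_comm]
      exact kappa_block 0 a j hj
    have hnext : kappa (42 * a + 42) = true := by
      rw [show 42 * a + 42 = 42 * (a + 1) by ring]
      exact kappa_mul42 _
    have r0 : kappa (42 * a + b) = false → ∃ r, Ag (42 * a + b) r ∧ Odd (ck (r + 1)) ∧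
        (r ≤ 3 ∨ (∃ k, p (k + 1) ∣ (42 * a + b) ∧ r + 1 ≤ 2 * p k) ∨
        (∃ k, p k ∣ (42 * a + b) ∧ (42 * a + b) / p k % q k = 64 ∧ r + 1 ≤ 2 * p k)) := by
      intro h
      refine ⟨0, ⟨fun i hi => by omega, ?_⟩, c1, Or.inl (by omega)⟩
      rw [add_zero, h, k0]
      decide
    have r1 : kappa (42 * a + b) = true → kappa (42 * a + (b + 1)) = true →
        ∃ r, Ag (42 * a + b) r ∧ Odd (ck (r + 1)) ∧
        (r ≤ 3 ∨ (∃ k, p (k + 1) ∣ (42 * a + b) ∧ r + 1 ≤ 2 * p k) ∨
        (∃ k, p k ∣ (42 * a + b) ∧ (42 * a + b) / p k % q k = 64 ∧ r + 1 ≤ 2 * p k)) := by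
      intro h h'
      refine ⟨1, ⟨fun i hi => ?_, ?_⟩, c2, Or.inl (by omega)⟩
      · have : i = 0 := by omega
        subst this
        rw [add_zero, h, k0]
      · rw [add_assoc, h', k1]
        decide
    have hb41 : ∀ X, s 0 a = X → (b + 1 < 42 → w 0 X (b + 1) = true) →
        kappa (42 * a + (b + 1)) = true := by
      intro X hX h
      by_cases hb : b + 1 < 42
      · rw [hv _ hb, hX]; exact h hb
      · rw [show b + 1 = 42 by omega]; exact hnext
    cases hX : s 0 a with
    | A =>
      by_cases hb41' : b = 41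
      · refine r1 ?_ (hb41 A hX fun h => by omega)
        rw [hv b (by omega), hX, hb41']
        rfl
      · refine r0 ?_
        rw [hv b (by omega), hX]
        simp only [w, decide_eq_false_iff_not]
        omega
    | C =>
      refine r1 ?_ (hb41 C hX fun _ => rfl)
      rw [hv b (by omega), hX]
      rfl
    | B =>
      by_cases hb1' : b = 1
      · subst hb1'
        refine ⟨3, ⟨fun i hi => ?_, ?_⟩, c4, Or.inl le_rfl⟩
        · rw [add_assoc, hv (1 + i) (by omega), hX]
          interval_cases i
          · rw [k0]; rfl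
          · rw [k1]; rfl
          · rw [k2]; rfl
        · rw [add_assoc, hv (1 + 3) (by omega), hX, k3]
          decide
      · by_cases hb23 : b = 2 ∨ b = 3
        · refine r0 ?_
          rw [hv b (by omega), hX]
          simp [w]
          omega
        · refine r1 ?_ (hb41 B hX fun h => ?_)
          · rw [hv b (by omega), hX]
            simp only [w, Bool.not_eq_true', decide_eq_false_iff_not]
            exact hb23
          · simp only [w, Bool.not_eq_true', decide_eq_false_iff_not]
            omega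

/-! ### The sum bound -/

noncomputable def R (n : ℕ) : ℕ := if h : 1 ≤ n then (exists_ret n h).choose else 0

lemma R_spec {n : ℕ} (hn : 1 ≤ n) : Ag n (R n) ∧ Odd (ck (R n + 1)) ∧
    (R n ≤ 3 ∨ (∃ k, p (k + 1) ∣ n ∧ R n + 1 ≤ 2 * p k) ∨
      (∃ k, p k ∣ n ∧ n / p k % q k = 64 ∧ R n + 1 ≤ 2 * p k)) := by
  rw [R, dif_pos hn]
  exact (exists_ret n hn).choose_spec

lemma lt_p (k : ℕ) : k < p k := by
  induction k with
  | zero => simp [p]
  | succ k ih =>
    rw [p]
    have := q_ge k
    nlinarith

lemma p_succ_ge (k : ℕ) : 2 * p k ≤ p (k + 1) := by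
  rw [p]
  have := q_ge k
  nlinarith

lemma sum_p_le (K i : ℕ) : 32 * ∑ k ∈ Finset.range K with 64 * p k ≤ i, p k ≤ i := by
  have h0 : ∀ K, ∑ k ∈ Finset.range (K + 1), p k ≤ 2 * p K := by
    intro K
    induction K with
    | zero => simp; omega
    | succ K ih =>
      rw [Finset.sum_range_succ]
      have := p_succ_ge K
      omega
  induction K with
  | zero => simp
  | succ K ih =>
    by_cases h : 64 * p K ≤ i
    · have h1 : ∑ k ∈ Finset.range (K + 1) with 64 * p k ≤ i, p k ≤
          ∑ k ∈ Finset.range (K + 1), p k :=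
        Finset.sum_le_sum_of_subset (Finset.filter_subset _ _)
      have h2 := h0 K
      omega
    · rw [Finset.range_add_one, Finset.filter_insert, if_neg h]
      exact ih

lemma geom (K i : ℕ) : 64 * ∑ k ∈ Finset.range K, p k * (i / p (k + 1)) ≤ i := by
  have h1 : ∀ K, 64 * 2 ^ K * ∑ k ∈ Finset.range K, p k * (i / p (k + 1)) ≤ (2 ^ K - 1) * i := by
    intro K
    induction K with
    | zero => simp
    | succ K ih =>
      rw [Finset.sum_range_succ, mul_add]
      have h2 : q K * (p K * (i / p (K + 1))) ≤ i := by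
        rw [← mul_assoc]
        exact Nat.mul_div_le i (p (K + 1))
      have h3 : 64 * 2 ^ (K + 1) * (p K * (i / p (K + 1))) ≤ i := by
        have : 64 * 2 ^ (K + 1) = q K := by
          unfold q; rw [show K + 7 = (K + 1) + 6 by ring, pow_add _ _ 6]; norm_num; ring
        rw [this]; exact h2
      have h4 : 64 * 2 ^ (K + 1) * ∑ k ∈ Finset.range K, p k * (i / p (k + 1)) =
          2 * (64 * 2 ^ K * ∑ k ∈ Finset.range K, p k * (i / p (k + 1))) := by
        rw [pow_succ]; ring
      have h5 : (2 ^ (K + 1) - 1) * i = 2 * ((2 ^ K - 1) * i) + i := by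
        have h6 : 1 ≤ 2 ^ K := Nat.one_le_two_pow
        obtain ⟨m, hm⟩ : ∃ m, 2 ^ K = m + 1 := ⟨2 ^ K - 1, by omega⟩
        rw [pow_succ, hm, show (m + 1) * 2 - 1 = 2 * m + 1 by omega,
          show m + 1 - 1 = m by omega]
        ring
      rw [h4, h5]
      omega
  have h2 := h1 K
  have h3 : (2 ^ K - 1) * i ≤ 2 ^ K * i := Nat.mul_le_mul_right _ (Nat.sub_le _ _)
  have h4 : 2 ^ K * (64 * ∑ k ∈ Finset.range K, p k * (i / p (k + 1))) ≤ 2 ^ K * i := by
    calc _ = 64 * 2 ^ K * ∑ k ∈ Finset.range K, p k * (i / p (k + 1)) := by ring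
      _ ≤ _ := h2.trans h3
  exact Nat.le_of_mul_le_mul_left h4 (by positivity)

lemma card_dvd (k i : ℕ) : ((Finset.Icc 1 i).filter fun n => p (k + 1) ∣ n).card ≤ i / p (k + 1) := by
  have h := Nat.Ioc_filter_dvd_card_eq_div i (p (k + 1))
  rw [← h]
  refine Finset.card_le_card fun n hn => ?_
  rw [Finset.mem_filter, Finset.mem_Icc] at hn
  rw [Finset.mem_filter, Finset.mem_Ioc]
  exact ⟨by omega, hn.2⟩

lemma card_64 (k i : ℕ) : ((Finset.Icc 1 i).filter fun n => p k ∣ n ∧ n / p k % q k = 64).card ≤
    i / p (k + 1) + if 64 * p k ≤ i then 1 else 0 := by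
  have hp := p_pos k
  have key : ∀ n, p k ∣ n → n / p k % q k = 64 → n = 64 * p k + p (k + 1) * (n / p (k + 1)) := by
    intro n h1 h2
    obtain ⟨a, rfl⟩ := h1
    rw [Nat.mul_div_cancel_left _ (by omega)] at h2
    have h3 : p k * a / p (k + 1) = a / q k := by
      rw [p, mul_comm (q k), ← Nat.div_div_eq_div_mul, Nat.mul_div_cancel_left _ (by omega)]
    rw [h3, p]
    have h4 := Nat.div_add_mod a (q k)
    rw [h2] at h4
    calc p k * a = p k * (q k * (a / q k) + 64) := by rw [h4]
      _ = _ := by ring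
  split_ifs with h
  · have h1 : ((Finset.Icc 1 i).filter fun n => p k ∣ n ∧ n / p k % q k = 64).card ≤
        (Finset.range (i / p (k + 1) + 1)).card := by
      refine Finset.card_le_card_of_injOn (fun n => n / p (k + 1)) ?_ ?_
      · intro n hn
        rw [Finset.mem_coe, Finset.mem_filter, Finset.mem_Icc] at hn
        rw [Finset.mem_coe, Finset.mem_range]
        exact Nat.lt_succ_of_le (Nat.div_le_div_right hn.1.2)
      · intro n hn n' hn' heq
        rw [Finset.mem_coe, Finset.mem_filter] at hn hn'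
        have h2 := key n hn.2.1 hn.2.2
        have h3 := key n' hn'.2.1 hn'.2.2
        have h4 : n / p (k + 1) = n' / p (k + 1) := heq
        rw [h2, h3, h4]
    rw [Finset.card_range] at h1
    exact h1
  · rw [Finset.card_eq_zero.2]
    · exact Nat.zero_le _
    · rw [Finset.filter_eq_empty_iff]
      rintro n hn ⟨h1, h2⟩
      have h3 := key n h1 h2
      rw [Finset.mem_Icc] at hn
      omega

lemma sum_bound (i : ℕ) :
    8 * (∑ j ∈ (Finset.Icc 1 i).filter (fun j => 4 ≤ R j), (R j + 1)) ≤ i := by
  classical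
  set K := i + 1 with hK
  have h1 : ∑ j ∈ (Finset.Icc 1 i).filter (fun j => 4 ≤ R j), (R j + 1) ≤
      ∑ j ∈ Finset.Icc 1 i, ∑ k ∈ Finset.range K, (2 * p k * (if p (k + 1) ∣ j then 1 else 0) +
        2 * p k * (if p k ∣ j ∧ j / p k % q k = 64 then 1 else 0)) := by
    rw [Finset.sum_filter]
    refine Finset.sum_le_sum fun j hj => ?_
    rw [Finset.mem_Icc] at hj
    split_ifs with hR
    · obtain ⟨-, -, h | ⟨k, hk1, hk2⟩ | ⟨k, hk1, hk2, hk3⟩⟩ := R_spec hj.1
      · omega
      · have h2 := Nat.le_of_dvd (by omega) hk1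
        have h3 := lt_p (k + 1)
        refine le_trans ?_ (Finset.single_le_sum (f := fun k =>
          (2 * p k * (if p (k + 1) ∣ j then 1 else 0) +
          2 * p k * (if p k ∣ j ∧ j / p k % q k = 64 then 1 else 0)))
          (fun _ _ => Nat.zero_le _) (Finset.mem_range.2 (show k < K by omega)))
        simp only [hk1, if_true]
        omega
      · have h2 := Nat.le_of_dvd (by omega) hk1
        have h3 := lt_p k
        refine le_trans ?_ (Finset.single_le_sum (f := fun k =>
          (2 * p k * (if p (k + 1) ∣ j then 1 else 0) +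
          2 * p k * (if p k ∣ j ∧ j / p k % q k = 64 then 1 else 0)))
          (fun _ _ => Nat.zero_le _) (Finset.mem_range.2 (show k < K by omega)))
        simp only [hk1, hk2, and_self, if_true]
        omega
    · exact Nat.zero_le _
  have h2 : ∑ j ∈ Finset.Icc 1 i, ∑ k ∈ Finset.range K,
      (2 * p k * (if p (k + 1) ∣ j then 1 else 0) +
        2 * p k * (if p k ∣ j ∧ j / p k % q k = 64 then 1 else 0)) ≤
      ∑ k ∈ Finset.range K, (4 * (p k * (i / p (k + 1))) +
        2 * (if 64 * p k ≤ i then p k else 0)) := by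
    rw [Finset.sum_comm]
    refine Finset.sum_le_sum fun k _ => ?_
    rw [Finset.sum_add_distrib, ← Finset.mul_sum, ← Finset.mul_sum, ← Finset.card_filter,
      ← Finset.card_filter]
    have h3 := Nat.mul_le_mul_left (2 * p k) (card_dvd k i)
    have h4 := Nat.mul_le_mul_left (2 * p k) (card_64 k i)
    split_ifs with h5
    · rw [if_pos h5] at h4
      nlinarith
    · rw [if_neg h5] at h4
      nlinarith
  rw [Finset.sum_add_distrib, ← Finset.mul_sum, ← Finset.mul_sum, ← Finset.sum_filter] at h2
  have h3 := geom K i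
  have h4 := sum_p_le K i
  omega

lemma cnt_eq (n : ℕ) : cnt (fun n => kappa (n - 1)) n = ck n := by
  induction n with
  | zero => simp [cnt, ck]
  | succ n ih =>
    have h1 : ck (n + 1) = ck n + if kappa n = true then 1 else 0 := by
      unfold ck
      rw [Nat.count_succ]
    rw [h1, ← ih]
    unfold cnt
    rw [← Finset.insert_Icc_right_eq_Icc_add_one (by omega), Finset.filter_insert]
    simp only [Nat.add_sub_cancel]
    split_ifs with h
    · rw [Finset.card_insert_of_notMem]
      simp
    · rfl

lemma le_R {n m : ℕ} (hn : 1 ≤ n) (h : ∀ i < m, kappa (n + i) = kappa i) : m ≤ R n := by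
  by_contra hcon
  exact (R_spec hn).1.2 (h _ (not_le.1 hcon))

end Comb

open Comb in
theorem jobComb : JobComb := by
  refine ⟨fun n => kappa (n - 1), R, p, ?_, ?_, ?_, ?_, sum_bound, ?_, ?_, ?_, ?_⟩
  · decide +kernel
  · intro n h1 h2
    interval_cases n <;> decide +kernel
  · decide +kernel
  · intro n hn
    obtain ⟨h1, h2, -⟩ := R_spec hn
    refine ⟨⟨?_, ?_⟩, ?_⟩
    · intro i hi1 hi2
      have := h1.1 (i - 1) (by omega)
      rw [show n + (i - 1) = n + i - 1 by omega] at this
      exact this
    · have := h1.2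
      rw [show n + R n = n + (R n + 1) - 1 by omega] at this
      exact this
    · rw [cnt_eq]
      exact h2
  · refine strictMono_nat_of_lt_succ fun k => ?_
    have := p_succ_ge k
    have := p_pos k
    omega
  · intro k
    have := p_pos k
    omega
  · intro k n hn
    have hp := p_pos (k + 1)
    refine le_R (Nat.mul_pos hn (by omega)) fun i hi => ?_
    have h1 : n * p (k + 1) + i = (n * q k) * p k + i := by rw [p]; ring
    rw [h1, kappa_block k _ i hi, s_mul, kappa_small k i hi]
  · intro k
    have hp := p_pos k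
    refine le_R (by omega) fun i hi => ?_
    rw [kappa_block k 64 i hi, s_64, kappa_small k i hi]

end Pool.Agent.R199.CE.CombJob
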