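import Pool.Agent.R199.CE.Defs

/-!
Job III (expansion) for MP_ef3a35_an. Proof by helper928, from the paper proof of helper199.
-/

namespace Pool.Agent.R199.CE.ExpJob

set_option linter.all false

/-- iterates of `g` -/
noncomputable def it (μ : ℝ) : ℕ → ℝ → ℝ
  | 0, u => u
  | n + 1, u => 1 - μ * (it μ n u) ^ 2

theorem xo_eq_it (μ : ℝ) (n : ℕ) : xo μ n = it μ n 0 := by
  induction n with
  | zero => rfl
  | succ n ih => simp only [xo, it, ih]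

theorem it_add (μ : ℝ) (m n : ℕ) (u : ℝ) : it μ (m + n) u = it μ n (it μ m u) := by
  induction n with
  | zero => rfl
  | succ n ih => rw [← add_assoc]; simp only [it, ih]

theorem xo_add (μ : ℝ) (m n : ℕ) : xo μ (m + n) = it μ n (xo μ m) := by
  rw [xo_eq_it, xo_eq_it, it_add]

theorem it_mem (μ : ℝ) (h1 : 1 < μ) (h2 : μ < 2) (n : ℕ) (u : ℝ) (hu : |u| ≤ 1) : |it μ n u| ≤ 1 := by
  induction n with
  | zero => exact hu
  | succ n ih =>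
    simp only [it]
    have h3 : (it μ n u) ^ 2 ≤ 1 := by
      rw [← sq_abs]; nlinarith [abs_nonneg (it μ n u)]
    have h4 : 0 ≤ (it μ n u) ^ 2 := sq_nonneg _
    rw [abs_le]; constructor <;> nlinarith

theorem xo_mem (μ : ℝ) (h1 : 1 < μ) (h2 : μ < 2) (n : ℕ) : |xo μ n| ≤ 1 := by
  rw [xo_eq_it]; exact it_mem μ h1 h2 n 0 (by norm_num)

theorem it_lip (μ : ℝ) (h1 : 1 < μ) (h2 : μ < 2) (n : ℕ) (u v : ℝ) (hu : |u| ≤ 1) (hv : |v| ≤ 1) :
    |it μ n u - it μ n v| ≤ 4 ^ n * |u - v| := by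
  induction n with
  | zero => simp [it]
  | succ n ih =>
    simp only [it]
    have a1 := it_mem μ h1 h2 n u hu
    have a2 := it_mem μ h1 h2 n v hv
    have e : (1 - μ * (it μ n u) ^ 2) - (1 - μ * (it μ n v) ^ 2) =
        -(μ * (it μ n u + it μ n v)) * (it μ n u - it μ n v) := by ring
    rw [e, abs_mul, abs_neg, abs_mul, abs_of_pos (by linarith : (0 : ℝ) < μ), pow_succ]
    have h3 : |it μ n u + it μ n v| ≤ 2 := (abs_add_le _ _).trans (by linarith)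
    have h4 : μ * |it μ n u + it μ n v| ≤ 4 := by nlinarith [abs_nonneg (it μ n u + it μ n v)]
    calc μ * |it μ n u + it μ n v| * |it μ n u - it μ n v| ≤ 4 * |it μ n u - it μ n v| :=
          mul_le_mul_of_nonneg_right h4 (abs_nonneg _)
      _ ≤ 4 * (4 ^ n * |u - v|) := by linarith
      _ = 4 ^ n * 4 * |u - v| := by ring

/-- the sign -/
noncomputable def sg (e : ℕ → Bool) (n : ℕ) : ℝ := if e n = true then 1 else -1

theorem sg_ne (e : ℕ → Bool) (m n : ℕ) (h : e m ≠ e n) : sg e m = - sg e n := by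
  unfold sg
  cases hm : e m <;> cases hn : e n <;> simp_all

theorem sg_sq (e : ℕ → Bool) (n : ℕ) : sg e n = 1 ∨ sg e n = -1 := by
  unfold sg; split_ifs <;> simp

theorem sg_pos (e : ℕ → Bool) (μ : ℝ) (hx : ∀ n, 1 ≤ n → (e n = true → 0 < xo μ n) ∧ (e n = false → xo μ n < 0))
    (n : ℕ) (hn : 1 ≤ n) : 0 < sg e n * xo μ n := by
  unfold sg
  cases h : e n
  · have := (hx n hn).2 h
    simp; exact this
  · have := (hx n hn).1 h
    simp; exact this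

/-- Step 0 -/
theorem R_small (e : ℕ → Bool) (R : ℕ → ℕ) (he1 : e 1 = true) (he : ∀ n, 2 ≤ n → n ≤ 41 → e n = false)
    (hA : ∀ n, 1 ≤ n → Agr e n (R n))
    (hS : ∀ i, 8 * (∑ j ∈ (Finset.Icc 1 i).filter (fun j => 4 ≤ R j), (R j + 1)) ≤ i) :
    (∀ n, 1 ≤ n → n ≤ 40 → R n = 0) ∧ (∀ n, 1 ≤ n → 4 ≤ R n → 8 * (R n + 1) ≤ n) ∧
    (∀ n, 1 ≤ n → R n < n) ∧ (∀ n, 2 ≤ n → R n + 1 < n) := by
  have h0 : ∀ n, 1 ≤ n → n ≤ 40 → R n = 0 := by
    intro n h1 h2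
    by_contra hne
    have h3 := (hA n h1).1 1 le_rfl (Nat.one_le_iff_ne_zero.mpr hne)
    rw [he1, he (n + 1) (by omega) (by omega)] at h3
    exact absurd h3 (by simp)
  have h1 : ∀ n, 1 ≤ n → 4 ≤ R n → 8 * (R n + 1) ≤ n := by
    intro n hn hR
    refine le_trans (Nat.mul_le_mul_left 8 ?_) (hS n)
    exact Finset.single_le_sum (f := fun j => R j + 1) (fun _ _ => Nat.zero_le _)
      (Finset.mem_filter.mpr ⟨Finset.mem_Icc.mpr ⟨hn, le_rfl⟩, hR⟩)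
  have h2 : ∀ n, 2 ≤ n → R n + 1 < n := by
    intro n hn
    by_cases h4 : 4 ≤ R n
    · have := h1 n (by omega) h4; omega
    · by_cases h40 : n ≤ 40
      · rw [h0 n (by omega) h40]; omega
      · omega
  refine ⟨h0, h1, fun n hn => ?_, h2⟩
  rcases Nat.lt_or_ge n 2 with h | h
  · have : n = 1 := by omega
    subst this; rw [h0 1 le_rfl (by norm_num)]; norm_num
  · have := h2 n h; omega

/-- Step 1 -/
theorem eps_small (e : ℕ → Bool) (μ : ℝ) (h1 : 1 < μ) (h2 : μ < 2) (he : ∀ n, 2 ≤ n → n ≤ 41 → e n = false)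
    (hx : ∀ n, 1 ≤ n → (e n = true → 0 < xo μ n) ∧ (e n = false → xo μ n < 0)) : (2 - μ) * 2 ^ 20 ≤ 1 := by
  have hneg : ∀ n, 2 ≤ n → n ≤ 41 → xo μ n < 0 := fun n h3 h4 => (hx n (by omega)).2 (he n h3 h4)
  have hge : ∀ n, -1 ≤ xo μ n := fun n => (abs_le.mp (xo_mem μ h1 h2 n)).1
  have h2v : xo μ 2 + 1 = 2 - μ := by
    simp only [xo]; ring
  have hstep : ∀ n, 2 ≤ n → n ≤ 40 → (2 - μ) + μ * (xo μ n + 1) ≤ xo μ (n + 1) + 1 := by
    intro n h3 h4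
    have a := hneg n h3 (by omega)
    have b := hge n
    simp only [xo]
    nlinarith [mul_nonneg (mul_nonneg (by linarith : (0 : ℝ) ≤ μ) (by linarith : (0 : ℝ) ≤ xo μ n + 1)) (by linarith : (0 : ℝ) ≤ - xo μ n)]
  have hlin : ∀ k : ℕ, k ≤ 39 → ((k : ℝ) + 1) * (2 - μ) ≤ xo μ (k + 2) + 1 := by
    intro k
    induction k with
    | zero => intro _; simp only [Nat.cast_zero, zero_add]; linarith [h2v]
    | succ k ih =>
      intro hk
      have a := ih (by omega)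
      have b := hstep (k + 2) (by omega) (by omega)
      have c := hge (k + 2)
      have d : xo μ (k + 1 + 2) = xo μ (k + 2 + 1) := by congr 1
      rw [d]
      push_cast
      nlinarith
  have hx41 := hneg 41 (by norm_num) le_rfl
  have h40 : 40 * (2 - μ) < 1 := by
    have := hlin 39 le_rfl
    norm_num at this
    linarith
  have hexp : ∀ k : ℕ, k ≤ 39 → ((79 : ℝ) / 40) ^ k * (2 - μ) ≤ xo μ (k + 2) + 1 := by
    intro k
    induction k with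
    | zero => intro _; simp only [pow_zero, one_mul, zero_add]; linarith [h2v]
    | succ k ih =>
      intro hk
      have a := ih (by omega)
      have b := hstep (k + 2) (by omega) (by omega)
      have c := hge (k + 2)
      have d : xo μ (k + 1 + 2) = xo μ (k + 2 + 1) := by congr 1
      rw [d, pow_succ]
      have f : 79 / 40 * (xo μ (k + 2) + 1) ≤ μ * (xo μ (k + 2) + 1) := mul_le_mul_of_nonneg_right (by linarith) (by linarith)
      linarith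
  have h39 := hexp 39 le_rfl
  have hp : (2 : ℝ) ^ 20 ≤ (79 / 40) ^ 39 := by norm_num
  have hε : 0 < 2 - μ := by linarith
  have h5 : (79 / 40 : ℝ) ^ 39 * (2 - μ) ≤ 1 := by
    have : xo μ (39 + 2) < 0 := hx41
    linarith
  calc (2 - μ) * 2 ^ 20 ≤ (2 - μ) * (79 / 40) ^ 39 := mul_le_mul_of_nonneg_left hp hε.le
    _ ≤ 1 := by linarith

/-- Lemma L -/
theorem lemL (e : ℕ → Bool) (R : ℕ → ℕ) (μ : ℝ) (h1 : 1 < μ) (h2 : μ < 2) (hA : ∀ n, 1 ≤ n → Agr e n (R n))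
    (hx : ∀ n, 1 ≤ n → (e n = true → 0 < xo μ n) ∧ (e n = false → xo μ n < 0))
    (j : ℕ) (hj : 1 ≤ j) (v : ℝ) (hv : |v| ≤ 1) (hs : 0 < sg e (j + (R j + 1)) * it μ (R j + 1) v)
    (hb : 1 ≤ 4 ^ (R j + 1) * |xo μ (R j + 1)|) : 1 ≤ 16 ^ (R j + 1) * v ^ 2 := by
  set r := R j with hr
  have hne := (hA j hj).2
  rw [← hr] at hne
  rw [sg_ne e _ _ hne] at hs
  have hp := sg_pos e μ hx (r + 1) (by omega)
  have hopp : |xo μ (r + 1)| ≤ |it μ (r + 1) v - xo μ (r + 1)| := by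
    rcases sg_sq e (r + 1) with h | h <;> rw [h] at hs hp
    · have a : 0 < xo μ (r + 1) := by linarith
      have b : it μ (r + 1) v < 0 := by linarith
      rw [abs_of_pos a, abs_of_neg (by linarith)]; linarith
    · have a : xo μ (r + 1) < 0 := by linarith
      have b : 0 < it μ (r + 1) v := by linarith
      rw [abs_of_neg a, abs_of_pos (by linarith)]; linarith
  have hv2 : v ^ 2 ≤ 1 := by rw [← sq_abs]; nlinarith [abs_nonneg v]
  have hlip : |it μ (r + 1) v - xo μ (r + 1)| ≤ 4 ^ r * (2 * v ^ 2) := by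
    have e1 : it μ (r + 1) v = it μ r (1 - μ * v ^ 2) := by
      rw [add_comm, it_add]; rfl
    have e2 : xo μ (r + 1) = it μ r 1 := by
      rw [add_comm, xo_add]; simp [xo]
    rw [e1, e2]
    refine (it_lip μ h1 h2 r _ _ ?_ (by norm_num)).trans ?_
    · rw [abs_le]; constructor <;> nlinarith [sq_nonneg v]
    · apply mul_le_mul_of_nonneg_left _ (by positivity)
      rw [show (1 - μ * v ^ 2 - 1) = -(μ * v ^ 2) by ring, abs_neg, abs_of_nonneg (by positivity)]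
      nlinarith [sq_nonneg v]
  have h4 : (0 : ℝ) < 4 ^ r := by positivity
  have h3 : 1 ≤ 4 ^ (r + 1) * (4 ^ r * (2 * v ^ 2)) :=
    hb.trans (mul_le_mul_of_nonneg_left (hopp.trans hlip) (by positivity))
  have h5 : (16 : ℝ) ^ (r + 1) * v ^ 2 = 2 * (4 ^ (r + 1) * (4 ^ r * (2 * v ^ 2))) := by
    rw [show (16 : ℝ) = 4 * 4 by norm_num, mul_pow, pow_succ]; ring
  rw [h5]; linarith

/-- Claim P -/
theorem claimP (e : ℕ → Bool) (R : ℕ → ℕ) (μ : ℝ) (h1 : 1 < μ) (h2 : μ < 2) (hA : ∀ n, 1 ≤ n → Agr e n (R n))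
    (hx : ∀ n, 1 ≤ n → (e n = true → 0 < xo μ n) ∧ (e n = false → xo μ n < 0))
    (hR1 : ∀ n, 1 ≤ n → R n < n) (hR2 : ∀ n, 2 ≤ n → R n + 1 < n) :
    ∀ j, 1 ≤ j → 1 ≤ 4 ^ (R j + 1) * |xo μ j| := by
  intro j
  induction j using Nat.strong_induction_on with
  | _ j ih =>
    intro hj
    rcases Nat.lt_or_ge j 2 with h | h
    · have : j = 1 := by omega
      subst this
      have : xo μ 1 = 1 := by simp [xo]
      rw [this, abs_one, mul_one]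
      exact one_le_pow₀ (by norm_num)
    · have hr := hR2 j h
      have hP := ih (R j + 1) hr (by omega)
      have hb : 1 ≤ 4 ^ (R j + 1) * |xo μ (R j + 1)| := by
        refine hP.trans (mul_le_mul_of_nonneg_right ?_ (abs_nonneg _))
        exact pow_le_pow_right₀ (by norm_num) (by have := hR1 (R j + 1) (by omega); omega)
      have hs : 0 < sg e (j + (R j + 1)) * it μ (R j + 1) (xo μ j) := by
        rw [← xo_add]; exact sg_pos e μ hx _ (by omega)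
      have hL := lemL e R μ h1 h2 hA hx j hj (xo μ j) (xo_mem μ h1 h2 j) hs hb
      have e1 : (16 : ℝ) ^ (R j + 1) * (xo μ j) ^ 2 = (4 ^ (R j + 1) * |xo μ j|) ^ 2 := by
        rw [mul_pow, sq_abs, ← pow_mul, show (16 : ℝ) = 4 ^ 2 by norm_num, ← pow_mul, mul_comm 2]
      rw [e1] at hL
      have hnn : 0 ≤ 4 ^ (R j + 1) * |xo μ j| := by positivity
      nlinarith

/-- one step of the product estimate -/
theorem stepw (μ v : ℝ) (h1 : 1 < μ) (h2 : μ < 2) (hε : (2 - μ) * 2 ^ 20 ≤ 1) (hv : |v| ≤ 1) (r : ℕ)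
    (hr : 1 ≤ 16 ^ (r + 1) * v ^ 2) :
    (64 / 17) * (4 - μ ^ 2 * (1 - μ * v ^ 2) ^ 2) ≤
      (2 * μ * |v|) ^ 2 * (4 - μ ^ 2 * v ^ 2) * 16 ^ (if 4 ≤ r then r + 1 else 0) := by
  have hv2 : v ^ 2 ≤ 1 := by rw [← sq_abs]; nlinarith [abs_nonneg v]
  have hv0 : 0 < v ^ 2 := by
    by_contra hcon
    have : v ^ 2 = 0 := le_antisymm (not_lt.mp hcon) (sq_nonneg _)
    rw [this, mul_zero] at hr
    linarith
  have hμ2 : μ ^ 2 < 4 := by nlinarith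
  have hμ1 : 1 ≤ μ ^ 2 := by nlinarith
  obtain ⟨w, hw⟩ : ∃ w, w = 4 - μ ^ 2 * v ^ 2 := ⟨_, rfl⟩
  have hw0 : 0 ≤ w := by rw [hw]; nlinarith
  have hid : 4 - μ ^ 2 * (1 - μ * v ^ 2) ^ 2 ≤ ((2 - μ) + μ ^ 2 * v ^ 2) * w := by
    have e1 : 4 - μ ^ 2 * (1 - μ * v ^ 2) ^ 2 = ((2 - μ) + μ ^ 2 * v ^ 2) * (w - (2 - μ)) := by rw [hw]; ring
    rw [e1]
    apply mul_le_mul_of_nonneg_left (by linarith)
    have := mul_nonneg (sq_nonneg μ) (sq_nonneg v)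
    linarith
  have e2 : (2 * μ * |v|) ^ 2 = 4 * (μ ^ 2 * v ^ 2) := by
    rw [mul_pow, mul_pow, sq_abs]; ring
  rw [e2, ← hw]
  refine (mul_le_mul_of_nonneg_left hid (by norm_num)).trans ?_
  obtain ⟨q, hq⟩ : ∃ q, q = μ ^ 2 * v ^ 2 := ⟨_, rfl⟩
  have hq0 : v ^ 2 ≤ q := by rw [hq]; nlinarith
  rw [← hq]
  split_ifs with h4
  · have hbig : (2 - μ) + q ≤ 16 ^ (r + 1) * q := by
      have a1 : (2 - μ) ≤ (2 - μ) * (16 ^ (r + 1) * v ^ 2) := le_mul_of_one_le_right (by linarith) hr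
      have a2 : (2 - μ) * (16 ^ (r + 1) * v ^ 2) ≤ 1 / 2 ^ 20 * (16 ^ (r + 1) * q) := by
        apply mul_le_mul
        · rw [le_div_iff₀ (by positivity)]; exact hε
        · exact mul_le_mul_of_nonneg_left hq0 (by positivity)
        · positivity
        · positivity
      have a3 : q ≤ 1 / 16 * (16 ^ (r + 1) * q) := by
        have : (16 : ℝ) ≤ 16 ^ (r + 1) := by
          calc (16 : ℝ) = 16 ^ 1 := by norm_num
            _ ≤ 16 ^ (r + 1) := pow_le_pow_right₀ (by norm_num) (by omega)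
        have hqq : 0 ≤ q := hv0.le.trans hq0
        nlinarith
      have a4 : 0 ≤ 16 ^ (r + 1) * q := mul_nonneg (by positivity) (hv0.le.trans hq0)
      nlinarith
    have hqq : 0 ≤ q := hv0.le.trans hq0
    have b1 := mul_le_mul_of_nonneg_right hbig hw0
    have b2 : 0 ≤ 16 ^ (r + 1) * q * w := mul_nonneg (mul_nonneg (by positivity) hqq) hw0
    nlinarith
  · have hr3 : r + 1 ≤ 4 := by omega
    have a1 : (2 - μ) ≤ q / 16 := by
      have b1 : 1 ≤ 16 ^ 4 * v ^ 2 := by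
        refine hr.trans (mul_le_mul_of_nonneg_right ?_ hv0.le)
        exact pow_le_pow_right₀ (by norm_num) hr3
      have b2 : (2 - μ) ≤ (2 - μ) * (16 ^ 4 * v ^ 2) := le_mul_of_one_le_right (by linarith) b1
      have b3 : (2 - μ) * (16 ^ 4 * v ^ 2) = (2 - μ) * 2 ^ 20 * (v ^ 2 / 16) := by ring
      have b4 : (2 - μ) * 2 ^ 20 * (v ^ 2 / 16) ≤ 1 * (v ^ 2 / 16) := mul_le_mul_of_nonneg_right hε (by positivity)
      linarith
    have hqq : 0 ≤ q := hv0.le.trans hq0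
    rw [pow_zero, mul_one]
    have c1 : ((2 - μ) + q) * w ≤ (17 / 16 * q) * w := mul_le_mul_of_nonneg_right (by linarith) hw0
    linarith

/-- the exponent -/
def ex (R : ℕ → ℕ) (j : ℕ) : ℕ := if 4 ≤ R j then R j + 1 else 0

theorem sum_ex (R : ℕ → ℕ) (i : ℕ) :
    ∑ j ∈ Finset.Icc 1 i, ex R j = ∑ j ∈ (Finset.Icc 1 i).filter (fun j => 4 ≤ R j), (R j + 1) := by
  rw [Finset.sum_filter]; rfl

/-- Step 3 -/
theorem prodlem (R : ℕ → ℕ) (μ u : ℝ) (h1 : 1 < μ) (h2 : μ < 2) (hε : (2 - μ) * 2 ^ 20 ≤ 1) (hu : |u| ≤ 1) (n : ℕ)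
    (hr : ∀ j, 1 ≤ j → j ≤ n → 1 ≤ 16 ^ (R j + 1) * (it μ (j - 1) u) ^ 2) :
    (64 / 17) ^ n * (4 - μ ^ 2 * (it μ n u) ^ 2) ≤
      (∏ j ∈ Finset.Icc 1 n, (2 * μ * |it μ (j - 1) u|)) ^ 2 * (4 - μ ^ 2 * u ^ 2) * 16 ^ (∑ j ∈ Finset.Icc 1 n, ex R j) := by
  induction n with
  | zero => simp [it]
  | succ n ih =>
    have ih' := ih fun j hj hjn => hr j hj (by omega)
    rw [Finset.prod_Icc_succ_top (by omega), Finset.sum_Icc_succ_top (by omega)]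
    have hlast := hr (n + 1) (by omega) le_rfl
    simp only [Nat.add_sub_cancel] at hlast ⊢
    have hst := stepw μ (it μ n u) h1 h2 hε (it_mem μ h1 h2 n u hu) (R (n + 1)) hlast
    have e1 : it μ (n + 1) u = 1 - μ * (it μ n u) ^ 2 := rfl
    rw [e1, pow_succ, pow_add]
    have e2 : (16 : ℝ) ^ (ex R (n + 1)) = 16 ^ (if 4 ≤ R (n + 1) then R (n + 1) + 1 else 0) := rfl
    rw [e2]
    obtain ⟨P, hP⟩ : ∃ P, P = ∏ j ∈ Finset.Icc 1 n, (2 * μ * |it μ (j - 1) u|) := ⟨_, rfl⟩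
    obtain ⟨F, hF⟩ : ∃ F : ℝ, F = 16 ^ (∑ j ∈ Finset.Icc 1 n, ex R j) := ⟨_, rfl⟩
    obtain ⟨G, hG⟩ : ∃ G : ℝ, G = 16 ^ (if 4 ≤ R (n + 1) then R (n + 1) + 1 else 0) := ⟨_, rfl⟩
    rw [← hP, ← hF] at ih'
    rw [← hG] at hst
    rw [← hP, ← hF, ← hG]
    have c1 : (64 / 17 : ℝ) ^ n * (64 / 17) * (4 - μ ^ 2 * (1 - μ * (it μ n u) ^ 2) ^ 2) ≤
        (64 / 17) ^ n * ((2 * μ * |it μ n u|) ^ 2 * (4 - μ ^ 2 * (it μ n u) ^ 2) * G) := by
      rw [mul_assoc]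
      exact mul_le_mul_of_nonneg_left hst (by positivity)
    have hG0 : 0 ≤ G := by rw [hG]; positivity
    have c2 : (64 / 17 : ℝ) ^ n * ((2 * μ * |it μ n u|) ^ 2 * (4 - μ ^ 2 * (it μ n u) ^ 2) * G) ≤
        (2 * μ * |it μ n u|) ^ 2 * G * (P ^ 2 * (4 - μ ^ 2 * u ^ 2) * F) := by
      calc (64 / 17 : ℝ) ^ n * ((2 * μ * |it μ n u|) ^ 2 * (4 - μ ^ 2 * (it μ n u) ^ 2) * G) =
          (2 * μ * |it μ n u|) ^ 2 * G * ((64 / 17 : ℝ) ^ n * (4 - μ ^ 2 * (it μ n u) ^ 2)) := by ring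
        _ ≤ _ := mul_le_mul_of_nonneg_left ih' (by positivity)
    refine (c1.trans c2).trans (le_of_eq ?_)
    ring

theorem prod7 (R : ℕ → ℕ) (μ u : ℝ) (h1 : 1 < μ) (h2 : μ < 2) (hε : (2 - μ) * 2 ^ 20 ≤ 1) (hu : |u| ≤ 1) (n : ℕ)
    (hS : ∀ i, 8 * (∑ j ∈ (Finset.Icc 1 i).filter (fun j => 4 ≤ R j), (R j + 1)) ≤ i)
    (hr : ∀ j, 1 ≤ j → j ≤ n → 1 ≤ 16 ^ (R j + 1) * (it μ (j - 1) u) ^ 2) :
    7 ^ n * (4 - μ ^ 2 * (it μ n u) ^ 2) ^ 2 ≤
      ((∏ j ∈ Finset.Icc 1 n, (2 * μ * |it μ (j - 1) u|)) ^ 2 * (4 - μ ^ 2 * u ^ 2)) ^ 2 := by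
  have h := prodlem R μ u h1 h2 hε hu n hr
  have hSn := hS n
  rw [← sum_ex] at hSn
  obtain ⟨P, hP⟩ : ∃ P, P = ∏ j ∈ Finset.Icc 1 n, (2 * μ * |it μ (j - 1) u|) := ⟨_, rfl⟩
  obtain ⟨S, hS'⟩ : ∃ S, S = ∑ j ∈ Finset.Icc 1 n, ex R j := ⟨_, rfl⟩
  rw [← hP, ← hS'] at h
  rw [← hS'] at hSn
  rw [← hP]
  have hwn : 0 ≤ 4 - μ ^ 2 * (it μ n u) ^ 2 := by
    have := it_mem μ h1 h2 n u hu
    have hv2 : (it μ n u) ^ 2 ≤ 1 := by rw [← sq_abs]; nlinarith [abs_nonneg (it μ n u)]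
    have hμ2 : μ ^ 2 < 4 := by nlinarith
    nlinarith [sq_nonneg (it μ n u), sq_nonneg μ]
  have h3 := pow_le_pow_left₀ (mul_nonneg (by positivity) hwn) h 2
  have h4 : ((64 / 17 : ℝ) ^ n) ^ 2 = (4096 / 289) ^ n := by rw [← pow_mul, mul_comm n 2, pow_mul]; norm_num
  have h5 : ((16 : ℝ) ^ S) ^ 2 ≤ 2 ^ n := by
    calc ((16 : ℝ) ^ S) ^ 2 = 2 ^ (8 * S) := by
          rw [← pow_mul, show (16 : ℝ) = 2 ^ 4 by norm_num, ← pow_mul]; congr 1; ring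
      _ ≤ 2 ^ n := pow_le_pow_right₀ (by norm_num) hSn
  have h6 : (14 : ℝ) ^ n ≤ (4096 / 289) ^ n := pow_le_pow_left₀ (by norm_num) (by norm_num) n
  have h7 : (14 : ℝ) ^ n = 7 ^ n * 2 ^ n := by rw [← mul_pow]; norm_num
  rw [mul_pow, h4, mul_pow] at h3
  obtain ⟨W, hW⟩ : ∃ W, W = (4 - μ ^ 2 * (it μ n u) ^ 2) ^ 2 := ⟨_, rfl⟩
  obtain ⟨Z, hZ⟩ : ∃ Z, Z = (P ^ 2 * (4 - μ ^ 2 * u ^ 2)) ^ 2 := ⟨_, rfl⟩
  rw [← hW, ← hZ] at h3
  rw [← hW, ← hZ]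
  have hW0 : 0 ≤ W := by rw [hW]; positivity
  have hZ0 : 0 ≤ Z := by rw [hZ]; positivity
  have h8 : 7 ^ n * 2 ^ n * W ≤ Z * 2 ^ n := by
    rw [← h7]
    calc 14 ^ n * W ≤ (4096 / 289) ^ n * W := mul_le_mul_of_nonneg_right h6 hW0
      _ ≤ Z * (16 ^ S) ^ 2 := h3
      _ ≤ Z * 2 ^ n := mul_le_mul_of_nonneg_left h5 hZ0
  have h9 : (0 : ℝ) < 2 ^ n := by positivity
  have h10 : 2 ^ n * (7 ^ n * W) ≤ 2 ^ n * Z := by linarith
  exact le_of_mul_le_mul_left h10 h9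

theorem it_deriv (μ : ℝ) (n : ℕ) (u : ℝ) :
    HasDerivAt (it μ n) (∏ j ∈ Finset.Icc 1 n, (-(2 * μ * it μ (j - 1) u))) u := by
  induction n with
  | zero =>
    have : it μ 0 = fun u => u := rfl
    rw [this]
    simpa using hasDerivAt_id' u
  | succ n ih =>
    have e1 : it μ (n + 1) = fun u => 1 - μ * (it μ n u) ^ 2 := rfl
    rw [e1, Finset.prod_Icc_succ_top (by omega), show n + 1 - 1 = n from rfl]
    have h := ((ih.pow 2).const_mul μ).const_sub 1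
    refine h.congr_deriv ?_
    norm_num
    ring

theorem seg (μ a b v : ℝ) (hμ : 0 < μ) (hab : (0 < a ∧ 0 < b) ∨ (a < 0 ∧ b < 0)) (hv : v ∈ Set.uIcc a b) :
    1 - μ * v ^ 2 ∈ Set.uIcc (1 - μ * a ^ 2) (1 - μ * b ^ 2) := by
  rw [Set.mem_uIcc] at hv ⊢
  have key : ∀ x y : ℝ, x ^ 2 ≤ y ^ 2 → 1 - μ * y ^ 2 ≤ 1 - μ * x ^ 2 := by
    intro x y hxy
    have := mul_le_mul_of_nonneg_left hxy hμ.le
    linarith
  rcases hab with ⟨ha, hb⟩ | ⟨ha, hb⟩ <;> rcases hv with ⟨h1, h2⟩ | ⟨h1, h2⟩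
  · right; constructor <;> apply key <;> nlinarith
  · left; constructor <;> apply key <;> nlinarith
  · left; constructor <;> apply key <;> nlinarith
  · right; constructor <;> apply key <;> nlinarith

/-- same sign on the segment -/
theorem seg_sign (s a b v : ℝ) (hs : s = 1 ∨ s = -1) (ha : 0 < s * a) (hb : 0 < s * b) (hv : v ∈ Set.uIcc a b) : 0 < s * v := by
  rw [Set.mem_uIcc] at hv
  rcases hs with h | h <;> rw [h] at ha hb ⊢ <;> rcases hv with ⟨h1, h2⟩ | ⟨h1, h2⟩ <;> linarith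

theorem seg_same (s a b : ℝ) (hs : s = 1 ∨ s = -1) (ha : 0 < s * a) (hb : 0 < s * b) : (0 < a ∧ 0 < b) ∨ (a < 0 ∧ b < 0) := by
  rcases hs with h | h <;> rw [h] at ha hb
  · left; constructor <;> linarith
  · right; constructor <;> linarith

theorem between (e : ℕ → Bool) (R : ℕ → ℕ) (μ : ℝ) (h1 : 1 < μ) (h2 : μ < 2) (hA : ∀ n, 1 ≤ n → Agr e n (R n))
    (hx : ∀ n, 1 ≤ n → (e n = true → 0 < xo μ n) ∧ (e n = false → xo μ n < 0))
    (j : ℕ) (hj : 1 ≤ j) (u : ℝ) (hu1 : xo μ (j + 1) ≤ u) (hu2 : u ≤ 1) :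
    ∀ n, n ≤ R j → it μ n u ∈ Set.uIcc (xo μ (j + (n + 1))) (xo μ (n + 1)) := by
  intro n
  induction n with
  | zero =>
    intro _
    rw [Set.mem_uIcc]
    left
    refine ⟨hu1, ?_⟩
    simpa [xo, it] using hu2
  | succ n ih =>
    intro hn
    have ih' := ih (by omega)
    have hsame : sg e (j + (n + 1)) = sg e (n + 1) := by
      unfold sg
      rw [(hA j hj).1 (n + 1) (by omega) hn]
    have p1 := sg_pos e μ hx (j + (n + 1)) (by omega)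
    have p2 := sg_pos e μ hx (n + 1) (by omega)
    rw [hsame] at p1
    exact seg μ _ _ _ (by linarith) (seg_same _ _ _ (sg_sq e _) p1 p2) ih'

theorem between_sign (e : ℕ → Bool) (R : ℕ → ℕ) (μ : ℝ) (h1 : 1 < μ) (h2 : μ < 2) (hA : ∀ n, 1 ≤ n → Agr e n (R n))
    (hx : ∀ n, 1 ≤ n → (e n = true → 0 < xo μ n) ∧ (e n = false → xo μ n < 0))
    (j : ℕ) (hj : 1 ≤ j) (u : ℝ) (hu1 : xo μ (j + 1) ≤ u) (hu2 : u ≤ 1) (n : ℕ) (hn1 : 1 ≤ n) (hn : n ≤ R j) :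
    0 < sg e n * it μ (n - 1) u := by
  have hb := between e R μ h1 h2 hA hx j hj u hu1 hu2 (n - 1) (by omega)
  have hn' : n - 1 + 1 = n := by omega
  rw [hn'] at hb
  have hsame : sg e (j + n) = sg e n := by
    unfold sg
    rw [(hA j hj).1 n hn1 hn]
  have p1 := sg_pos e μ hx (j + n) (by omega)
  have p2 := sg_pos e μ hx n hn1
  rw [hsame] at p1
  exact seg_sign _ _ _ _ (sg_sq e _) p1 p2 hb

theorem jobExp : JobExp := by
  intro e R μ h1 h2 he1 he hA hS hx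
  obtain ⟨hR0, hR4, hR1, hR2⟩ := R_small e R he1 he hA hS
  have hε := eps_small e μ h1 h2 he hx
  have hP := claimP e R μ h1 h2 hA hx hR1 hR2
  have hμ2 : μ ^ 2 < 4 := by nlinarith
  have hw0 : 0 < 4 - μ ^ 2 := by linarith
  have hwge : ∀ v : ℝ, |v| ≤ 1 → 4 - μ ^ 2 ≤ 4 - μ ^ 2 * v ^ 2 := by
    intro v hv
    have hv2 : v ^ 2 ≤ 1 := by rw [← sq_abs]; nlinarith [abs_nonneg v]
    nlinarith [sq_nonneg μ]
  refine ⟨fun n => ?_, fun δ hδ => ?_⟩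
  · have hxo : ∀ j, 1 ≤ j → it μ (j - 1) 1 = xo μ j := by
      intro j hj
      have h3 := xo_add μ 1 (j - 1)
      have h4 : 1 + (j - 1) = j := by omega
      have h5 : xo μ 1 = 1 := by simp [xo]
      rw [h4, h5] at h3
      exact h3.symm
    have h7 := prod7 R μ 1 h1 h2 hε (by norm_num) n hS (fun j hj _ => by
      rw [hxo j hj]
      have h3 := hP j hj
      have e1 : (16 : ℝ) ^ (R j + 1) * (xo μ j) ^ 2 = (4 ^ (R j + 1) * |xo μ j|) ^ 2 := by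
        rw [mul_pow, sq_abs, ← pow_mul, show (16 : ℝ) = 4 ^ 2 by norm_num, ← pow_mul, mul_comm 2]
      rw [e1]
      exact one_le_pow₀ h3)
    have hprod : ∏ j ∈ Finset.Icc 1 n, (2 * μ * |it μ (j - 1) 1|) = ∏ j ∈ Finset.Icc 1 n, (2 * μ * |xo μ j|) :=
      Finset.prod_congr rfl fun j hj => by rw [hxo j (Finset.mem_Icc.mp hj).1]
    rw [hprod] at h7
    have hw := hwge (it μ n 1) (it_mem μ h1 h2 n 1 (by norm_num))
    have h8 : (4 - μ ^ 2) ^ 2 ≤ (4 - μ ^ 2 * (it μ n 1) ^ 2) ^ 2 := pow_le_pow_left₀ hw0.le hw 2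
    obtain ⟨P, hPP⟩ : ∃ P, P = ∏ j ∈ Finset.Icc 1 n, (2 * μ * |xo μ j|) := ⟨_, rfl⟩
    rw [← hPP] at h7 ⊢
    have h9 : 7 ^ n * (4 - μ ^ 2) ^ 2 ≤ P ^ 4 * (4 - μ ^ 2) ^ 2 := by
      calc 7 ^ n * (4 - μ ^ 2) ^ 2 ≤ 7 ^ n * (4 - μ ^ 2 * (it μ n 1) ^ 2) ^ 2 := mul_le_mul_of_nonneg_left h8 (by positivity)
        _ ≤ (P ^ 2 * (4 - μ ^ 2 * 1 ^ 2)) ^ 2 := h7
        _ = P ^ 4 * (4 - μ ^ 2) ^ 2 := by ring
    exact le_of_mul_le_mul_right h9 (by positivity)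
  · -- second assertion
    obtain ⟨d, hd⟩ : ∃ d, d = min δ (1 / 2) := ⟨_, rfl⟩
    have hd0 : 0 < d := by rw [hd]; exact lt_min hδ (by norm_num)
    have hd1 : d ≤ 1 / 2 := by rw [hd]; exact min_le_right _ _
    have hdδ : d ≤ δ := by rw [hd]; exact min_le_left _ _
    obtain ⟨n0, hn0⟩ : ∃ n0 : ℕ, 256 / ((4 - μ ^ 2) ^ 2 * d ^ 8) < 7 ^ n0 := pow_unbounded_of_one_lt _ (by norm_num)
    rw [div_lt_iff₀ (by positivity)] at hn0
    refine ⟨2 * n0 + 8, fun j hj hRj => ?_⟩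
    by_contra hcon
    push Not at hcon
    have hxd : d ≤ |xo μ j| := hdδ.trans hcon
    have hxj : xo μ (j + 1) ≤ 1 - d ^ 2 := by
      simp only [xo]
      have : d ^ 2 ≤ (xo μ j) ^ 2 := by rw [← sq_abs (xo μ j)]; exact pow_le_pow_left₀ hd0.le hxd 2
      nlinarith
    -- the mean value theorem
    obtain ⟨ξ, hξ, hξ2⟩ := exists_hasDerivAt_eq_slope (it μ n0) (fun u => ∏ j ∈ Finset.Icc 1 n0, (-(2 * μ * it μ (j - 1) u)))
      (show 1 - d ^ 2 < 1 by nlinarith) (fun u _ => (it_deriv μ n0 u).continuousAt.continuousWithinAt)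
      (fun u _ => it_deriv μ n0 u)
    have hd2 : d ^ 2 ≤ 1 := by nlinarith
    have hξu : |ξ| ≤ 1 := by
      rw [abs_le]; constructor <;> linarith [hξ.1, hξ.2]
    have hsgn : ∀ n, 1 ≤ n → n ≤ R j → 0 < sg e n * it μ (n - 1) ξ := fun n hn1 hn =>
      between_sign e R μ h1 h2 hA hx j hj ξ (by linarith [hξ.1]) hξ.2.le n hn1 hn
    have h7 := prod7 R μ ξ h1 h2 hε hξu n0 hS (fun n hn1 hn => by
      have hRn : n + (R n + 1) ≤ R j := by
        by_cases h4 : 4 ≤ R n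
        · have := hR4 n hn1 h4; omega
        · omega
      refine lemL e R μ h1 h2 hA hx n hn1 (it μ (n - 1) ξ) (it_mem μ h1 h2 _ _ hξu) ?_ ?_
      · rw [← it_add]
        have h3 := hsgn (n + (R n + 1)) (by omega) hRn
        have h4 : n + (R n + 1) - 1 = n - 1 + (R n + 1) := by omega
        rwa [h4] at h3
      · have h3 := hP (R n + 1) (by omega)
        refine h3.trans (mul_le_mul_of_nonneg_right ?_ (abs_nonneg _))
        exact pow_le_pow_right₀ (by norm_num) (by have := hR1 (R n + 1) (by omega); omega))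
    have habs : |∏ j ∈ Finset.Icc 1 n0, (-(2 * μ * it μ (j - 1) ξ))| = ∏ j ∈ Finset.Icc 1 n0, (2 * μ * |it μ (j - 1) ξ|) := by
      rw [Finset.abs_prod]
      refine Finset.prod_congr rfl fun j _ => ?_
      rw [abs_neg, abs_mul, abs_of_pos (by linarith : (0 : ℝ) < 2 * μ)]
    obtain ⟨D, hD⟩ : ∃ D, D = ∏ j ∈ Finset.Icc 1 n0, (2 * μ * |it μ (j - 1) ξ|) := ⟨_, rfl⟩
    rw [← hD] at h7 habs
    have hD0 : 0 ≤ D := by rw [← habs]; exact abs_nonneg _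
    have hDd : D * d ^ 2 ≤ 2 := by
      have e1 : (∏ j ∈ Finset.Icc 1 n0, (-(2 * μ * it μ (j - 1) ξ))) * d ^ 2 = it μ n0 1 - it μ n0 (1 - d ^ 2) := by
        have e2 : (1 : ℝ) - (1 - d ^ 2) = d ^ 2 := by ring
        rw [e2] at hξ2
        have : (d ^ 2 : ℝ) ≠ 0 := by positivity
        rw [show (∏ j ∈ Finset.Icc 1 n0, (-(2 * μ * it μ (j - 1) ξ))) = (it μ n0 1 - it μ n0 (1 - d ^ 2)) / d ^ 2 from hξ2]
        field_simp
      have e3 : D * d ^ 2 = |it μ n0 1 - it μ n0 (1 - d ^ 2)| := by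
        rw [← e1, abs_mul, habs, abs_of_pos (by positivity : (0 : ℝ) < d ^ 2)]
      rw [e3]
      have a1 := it_mem μ h1 h2 n0 1 (by norm_num)
      have a2 := it_mem μ h1 h2 n0 (1 - d ^ 2) (by rw [abs_le]; constructor <;> nlinarith)
      rw [abs_le] at a1 a2 ⊢
      constructor <;> linarith [a1.1, a1.2, a2.1, a2.2]
    have hwn := hwge (it μ n0 ξ) (it_mem μ h1 h2 n0 ξ hξu)
    have hwu : 4 - μ ^ 2 * ξ ^ 2 ≤ 4 := by nlinarith [sq_nonneg (μ * ξ)]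
    have hwu0 : 0 ≤ 4 - μ ^ 2 * ξ ^ 2 := hw0.le.trans (hwge ξ hξu)
    have h8 : (4 - μ ^ 2) ^ 2 ≤ (4 - μ ^ 2 * (it μ n0 ξ) ^ 2) ^ 2 := pow_le_pow_left₀ hw0.le hwn 2
    have h9 : 7 ^ n0 * (4 - μ ^ 2) ^ 2 ≤ 16 * D ^ 4 := by
      calc 7 ^ n0 * (4 - μ ^ 2) ^ 2 ≤ 7 ^ n0 * (4 - μ ^ 2 * (it μ n0 ξ) ^ 2) ^ 2 := mul_le_mul_of_nonneg_left h8 (by positivity)
        _ ≤ (D ^ 2 * (4 - μ ^ 2 * ξ ^ 2)) ^ 2 := h7
        _ ≤ (D ^ 2 * 4) ^ 2 := pow_le_pow_left₀ (mul_nonneg (by positivity) hwu0) (mul_le_mul_of_nonneg_left hwu (by positivity)) 2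
        _ = 16 * D ^ 4 := by ring
    have h10 : (D * d ^ 2) ^ 4 ≤ 2 ^ 4 := pow_le_pow_left₀ (by positivity) hDd 4
    have h11 : 7 ^ n0 * (4 - μ ^ 2) ^ 2 * d ^ 8 ≤ 16 * (D * d ^ 2) ^ 4 := by
      calc 7 ^ n0 * (4 - μ ^ 2) ^ 2 * d ^ 8 ≤ 16 * D ^ 4 * d ^ 8 := mul_le_mul_of_nonneg_right h9 (by positivity)
        _ = 16 * (D * d ^ 2) ^ 4 := by ring
    nlinarith

end Pool.Agent.R199.CE.ExpJob
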