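import Mathlib
import Pool.Agent.R199.CE.Defs

/-!
MP_ef3a35_an: assembly.  A quadratic map `f(x) = 1 - (μ/2)(2x-1)^2` of `[0,1]` whose turning point
is regularly recurrent, whose kneading sequence is not slowly recurrent and which satisfies the
Collet-Eckmann condition.
-/

namespace Pool.Agent.R199.CE

open Filter Topology
open scoped ENNReal

/-- unimodal map of `[0,1]` with turning point `c` -/
structure IsUnimodal (f : ℝ → ℝ) (c : ℝ) : Prop where
  mem : c ∈ Set.Ioo (0 : ℝ) 1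
  maps : Set.MapsTo f (Set.Icc 0 1) (Set.Icc 0 1)
  cont : ContinuousOn f (Set.Icc 0 1)
  mono : StrictMonoOn f (Set.Icc 0 c)
  anti : StrictAntiOn f (Set.Icc c 1)

/-- S-unimodal map of `[0,1]` with turning point `c`: unimodal, `C^3`, negative Schwarzian
derivative away from `c`, non-flat turning point. -/
structure IsSUnimodal (f : ℝ → ℝ) (c : ℝ) : Prop extends IsUnimodal f c where
  smooth : ContDiff ℝ 3 f
  schwarz : ∀ x ∈ Set.Icc (0 : ℝ) 1, x ≠ c → deriv f x ≠ 0 ∧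
    (deriv^[3] f x) / (deriv f x) - 3 / 2 * ((deriv^[2] f x) / (deriv f x)) ^ 2 < 0
  nonflat : ∃ (ℓ : ℝ) (φ : ℝ → ℝ), 1 < ℓ ∧ ContDiffAt ℝ 3 φ c ∧ φ c = 0 ∧ deriv φ c ≠ 0 ∧
    ∀ᶠ x in 𝓝 c, |f x - f c| = |φ x| ^ ℓ

/-- the turning point `c` is regularly recurrent -/
def RegularlyRecurrent (f : ℝ → ℝ) (c : ℝ) : Prop :=
  ∀ U ∈ 𝓝 c, ∃ k, 1 ≤ k ∧ ∀ n, 1 ≤ n → f^[n * k] c ∈ U

/-- the kneading sequence: `kneading f c i` says that `c_i = f^i(c)` lies to the right of `c` -/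
def kneading (f : ℝ → ℝ) (c : ℝ) (i : ℕ) : Prop := c < f^[i] c

/-- the return function of a two-symbol sequence: the largest `r ≤ ∞` such that
`e_{m+i} = e_i` for `1 ≤ i ≤ r` -/
noncomputable def ret (e : ℕ → Prop) (m : ℕ) : ℕ∞ :=
  ⨆ (r : ℕ) (_ : ∀ i, 1 ≤ i → i ≤ r → (e (m + i) ↔ e i)), (r : ℕ∞)

open Classical in
/-- `lim_{l → ∞} limsup_{i → ∞} (1/i) ∑_{1 ≤ j ≤ i, ret j ≥ l} ret j = 0` -/
def SlowlyRecurrent (e : ℕ → Prop) : Prop :=
  Tendsto (fun l : ℕ => limsup (fun i : ℕ =>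
    (∑ j ∈ (Finset.Icc 1 i).filter (fun j => (l : ℕ∞) ≤ ret e j), ((ret e j : ℕ∞) : ℝ≥0∞)) /
      (i : ℝ≥0∞)) atTop) atTop (𝓝 0)

/-- Collet-Eckmann condition -/
def ColletEckmann (f : ℝ → ℝ) (c : ℝ) : Prop :=
  ∃ κ lam : ℝ, 0 < κ ∧ 1 < lam ∧ ∀ n, 1 ≤ n → κ * lam ^ n < |deriv (f^[n]) (f c)|

/-- the quadratic family on `[0,1]` -/
noncomputable def quad (μ : ℝ) (x : ℝ) : ℝ := 1 - μ / 2 * (2 * x - 1) ^ 2

lemma quad_iter (μ : ℝ) (n : ℕ) : (quad μ)^[n] (1 / 2) = (xo μ n + 1) / 2 := by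
  induction n with
  | zero => simp [xo]
  | succ n ih =>
    rw [Function.iterate_succ_apply', ih]
    simp only [quad, xo]
    ring

lemma quad_hasDerivAt (μ x : ℝ) : HasDerivAt (quad μ) (-(2 * μ * (2 * x - 1))) x := by
  unfold quad
  have h : HasDerivAt (fun x : ℝ => 2 * x - 1) 2 x := by
    simpa using ((hasDerivAt_id x).const_mul 2).sub_const 1
  have h2 := (((h.pow 2).const_mul (μ / 2)).const_sub 1)
  refine h2.congr_deriv ?_
  push_cast
  ring

lemma quad_deriv (μ : ℝ) : deriv (quad μ) = fun x => -(2 * μ * (2 * x - 1)) := by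
  funext x
  exact (quad_hasDerivAt μ x).deriv

lemma quad_deriv2 (μ : ℝ) : deriv^[2] (quad μ) = fun _ => -(4 * μ) := by
  rw [Function.iterate_succ, Function.comp_apply, quad_deriv]
  simp only [Function.iterate_one]
  funext x
  have h : HasDerivAt (fun x : ℝ => -(2 * μ * (2 * x - 1))) (-(4 * μ)) x := by
    have h1 : HasDerivAt (fun x : ℝ => 2 * x - 1) 2 x := by
      simpa using ((hasDerivAt_id x).const_mul 2).sub_const 1
    refine ((h1.const_mul (2 * μ)).neg).congr_deriv ?_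
    ring
  exact h.deriv

lemma quad_deriv3 (μ : ℝ) : deriv^[3] (quad μ) = fun _ => 0 := by
  rw [Function.iterate_succ_apply', quad_deriv2]
  funext x
  simp

lemma quad_iter_hasDerivAt (μ : ℝ) (n : ℕ) :
    HasDerivAt ((quad μ)^[n]) (∏ j ∈ Finset.Icc 1 n, (-(2 * μ * xo μ j))) (quad μ (1 / 2)) := by
  induction n with
  | zero => simpa using hasDerivAt_id (quad μ (1 / 2))
  | succ n ih =>
    rw [Function.iterate_succ', Finset.prod_Icc_succ_top (by omega), mul_comm]
    have h1 : (quad μ)^[n] (quad μ (1 / 2)) = (xo μ (n + 1) + 1) / 2 := by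
      rw [← Function.iterate_succ_apply, quad_iter]
    have h2 := quad_hasDerivAt μ ((quad μ)^[n] (quad μ (1 / 2)))
    have h3 := HasDerivAt.comp (quad μ (1 / 2)) h2 ih
    refine h3.congr_deriv ?_
    rw [h1]
    ring

lemma quad_iter_deriv_abs (μ : ℝ) (hμ : 0 < μ) (n : ℕ) :
    |deriv ((quad μ)^[n]) (quad μ (1 / 2))| = ∏ j ∈ Finset.Icc 1 n, (2 * μ * |xo μ j|) := by
  rw [(quad_iter_hasDerivAt μ n).deriv, Finset.abs_prod]
  refine Finset.prod_congr rfl fun j _ => ?_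
  rw [abs_neg, abs_mul, abs_of_pos (by positivity : 0 < 2 * μ)]

lemma quad_sunimodal (μ : ℝ) (h1 : 1 < μ) (h2 : μ < 2) : IsSUnimodal (quad μ) (1 / 2) where
  mem := by constructor <;> norm_num
  maps := by
    intro x hx
    obtain ⟨hx0, hx1⟩ := hx
    have h : (2 * x - 1) ^ 2 ≤ 1 := by nlinarith
    have h' : 0 ≤ (2 * x - 1) ^ 2 := sq_nonneg _
    constructor <;> unfold quad <;> nlinarith
  cont := by
    unfold quad
    fun_prop
  mono := by
    intro x hx y hy hxy
    obtain ⟨hx0, hx1⟩ := hx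
    obtain ⟨hy0, hy1⟩ := hy
    have h : (2 * y - 1) ^ 2 < (2 * x - 1) ^ 2 := by nlinarith
    unfold quad
    nlinarith
  anti := by
    intro x hx y hy hxy
    obtain ⟨hx0, hx1⟩ := hx
    obtain ⟨hy0, hy1⟩ := hy
    have h : (2 * x - 1) ^ 2 < (2 * y - 1) ^ 2 := by nlinarith
    unfold quad
    nlinarith
  smooth := by
    unfold quad
    fun_prop
  schwarz := by
    intro x _ hxc
    have hne : 2 * x - 1 ≠ 0 := by
      intro h
      apply hxc
      linarith
    have hd : deriv (quad μ) x ≠ 0 := by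
      rw [quad_deriv]
      have : μ ≠ 0 := by linarith
      simpa using ⟨this, hne⟩
    refine ⟨hd, ?_⟩
    rw [quad_deriv3, quad_deriv2]
    have h4 : (0 : ℝ) < (-(4 * μ) / deriv (quad μ) x) ^ 2 := by
      have h5 : -(4 * μ) / deriv (quad μ) x ≠ 0 := div_ne_zero (by linarith) hd
      positivity
    simp only [zero_div, zero_sub]
    linarith
  nonflat := by
    refine ⟨2, fun x => Real.sqrt (2 * μ) * (x - 1 / 2), by norm_num, ?_, by simp, ?_, ?_⟩
    · fun_prop
    · have : HasDerivAt (fun x : ℝ => Real.sqrt (2 * μ) * (x - 1 / 2)) (Real.sqrt (2 * μ)) (1 / 2) := by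
        have h0 := ((hasDerivAt_id (1 / 2 : ℝ)).sub_const (1 / 2)).const_mul (Real.sqrt (2 * μ))
        rw [mul_one] at h0
        exact h0
      rw [this.deriv]
      exact (Real.sqrt_pos.mpr (by linarith)).ne'
    · refine Filter.Eventually.of_forall fun x => ?_
      have e1 : quad μ x - quad μ (1 / 2) = -(2 * μ * (x - 1 / 2) ^ 2) := by
        unfold quad
        ring
      rw [e1, abs_neg, abs_of_nonneg (by positivity)]
      have e2 : |Real.sqrt (2 * μ) * (x - 1 / 2)| ^ (2 : ℝ) =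
          (Real.sqrt (2 * μ) * (x - 1 / 2)) ^ 2 := by
        rw [show (2 : ℝ) = ((2 : ℕ) : ℝ) by norm_num, Real.rpow_natCast, sq_abs]
      rw [e2, mul_pow, Real.sq_sqrt (by linarith)]

lemma ret_eq (e : ℕ → Bool) (K : ℕ → Prop) (hK : ∀ i, 1 ≤ i → (K i ↔ e i = true)) (n r : ℕ)
    (h : Agr e n r) : ret K n = (r : ℕ∞) := by
  apply le_antisymm
  · refine iSup₂_le fun r' hr' => ?_
    by_contra hlt
    push Not at hlt
    have hlt' : r < r' := by exact_mod_cast hlt
    have h1 := hr' (r + 1) (by omega) (by omega)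
    rw [hK _ (by omega), hK _ (by omega)] at h1
    exact h.2 (Bool.eq_iff_iff.mpr h1)
  · refine le_iSup₂_of_le r ?_ le_rfl
    intro i hi1 hi2
    rw [hK _ (by omega), hK _ (by omega), h.1 i hi1 hi2]

/-- the assembled theorem -/
theorem assemble (h1 : JobComb) (h2 : JobReal) (h3 : JobExp) :
    ∃ μ : ℝ, 1 < μ ∧ μ < 2 ∧
      IsSUnimodal (quad μ) (1 / 2) ∧
      (∀ i, 1 ≤ i → (quad μ)^[i] (1 / 2) ≠ 1 / 2) ∧
      RegularlyRecurrent (quad μ) (1 / 2) ∧
      ¬ SlowlyRecurrent (kneading (quad μ) (1 / 2)) ∧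
      ColletEckmann (quad μ) (1 / 2) := by
  obtain ⟨e, R, p, he1, he2, he3, hR, hS, hp, hp1, hreg, hns⟩ := h1
  obtain ⟨μ, hμ1, hμ2, hμ⟩ := h2 e R he1 (he2 2 le_rfl (by norm_num)) ⟨42, by norm_num, he3⟩ hR
  obtain ⟨hce, hdel⟩ := h3 e R μ hμ1 hμ2 he1 he2 (fun n hn => (hR n hn).1) hS hμ
  have hK : ∀ i, 1 ≤ i → (kneading (quad μ) (1 / 2) i ↔ e i = true) := by
    intro i hi
    unfold kneading
    rw [quad_iter]
    constructor
    · intro h
      by_contra hne
      have := (hμ i hi).2 (by simpa using hne)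
      linarith
    · intro h
      have := (hμ i hi).1 h
      linarith
  refine ⟨μ, hμ1, hμ2, quad_sunimodal μ hμ1 hμ2, ?_, ?_, ?_, ?_⟩
  · intro i hi
    rw [quad_iter]
    intro h
    have h0 : xo μ i = 0 := by linarith
    rcases Bool.eq_false_or_eq_true (e i) with h' | h'
    · have := (hμ i hi).1 h'
      linarith
    · have := (hμ i hi).2 h'
      linarith
  · intro U hU
    obtain ⟨δ, hδ, hball⟩ := Metric.mem_nhds_iff.mp hU
    obtain ⟨l, hl⟩ := hdel δ hδ
    refine ⟨p (l + 1), hp1 _, fun n hn => hball ?_⟩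
    rw [quad_iter, Metric.mem_ball, Real.dist_eq]
    have h4 : l ≤ R (n * p (l + 1)) := le_trans (hp.id_le l) (hreg l n hn)
    have h5 := hl (n * p (l + 1)) (Nat.mul_pos hn (hp1 _)) h4
    have h6 : (xo μ (n * p (l + 1)) + 1) / 2 - 1 / 2 = xo μ (n * p (l + 1)) / 2 := by ring
    rw [h6, abs_div, abs_two]
    have := abs_nonneg (xo μ (n * p (l + 1)))
    linarith
  · intro hslow
    unfold SlowlyRecurrent at hslow
    have hlow : ∀ l : ℕ, ENNReal.ofReal (1 / 64) ≤ limsup (fun i : ℕ =>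
        (∑ j ∈ (Finset.Icc 1 i).filter (fun j => (l : ℕ∞) ≤ ret (kneading (quad μ) (1 / 2)) j),
          ((ret (kneading (quad μ) (1 / 2)) j : ℕ∞) : ℝ≥0∞)) / (i : ℝ≥0∞)) atTop := by
      intro l
      refine le_limsup_of_frequently_le ?_ (by isBoundedDefault)
      rw [Filter.frequently_atTop]
      intro a
      set k := max l a with hk
      have hkp : k ≤ p k := hp.id_le k
      refine ⟨64 * p k, by have := le_max_right l a; omega, ?_⟩
      have hpos : 1 ≤ 64 * p k := by have := hp1 k; omega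
      have hret : ret (kneading (quad μ) (1 / 2)) (64 * p k) = ((R (64 * p k) : ℕ) : ℕ∞) :=
        ret_eq e _ hK _ _ (hR _ hpos).1
      have hlR : l ≤ R (64 * p k) := le_trans (le_trans (le_max_left l a) hkp) (hns k)
      have hmem : 64 * p k ∈ (Finset.Icc 1 (64 * p k)).filter
          (fun j => (l : ℕ∞) ≤ ret (kneading (quad μ) (1 / 2)) j) := by
        rw [Finset.mem_filter, hret]
        refine ⟨Finset.mem_Icc.mpr ⟨hpos, le_rfl⟩, by exact_mod_cast hlR⟩
      have hsum : ((p k : ℕ) : ℝ≥0∞) ≤ ∑ j ∈ (Finset.Icc 1 (64 * p k)).filter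
          (fun j => (l : ℕ∞) ≤ ret (kneading (quad μ) (1 / 2)) j),
          ((ret (kneading (quad μ) (1 / 2)) j : ℕ∞) : ℝ≥0∞) := by
        refine le_trans ?_ (Finset.single_le_sum (f := fun j =>
          ((ret (kneading (quad μ) (1 / 2)) j : ℕ∞) : ℝ≥0∞)) (fun _ _ => bot_le) hmem)
        simp only [hret]
        simpa using hns k
      have hpk : (0 : ℝ) < p k := by exact_mod_cast hp1 k
      calc ENNReal.ofReal (1 / 64) = ((p k : ℕ) : ℝ≥0∞) / ((64 * p k : ℕ) : ℝ≥0∞) := by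
            rw [← ENNReal.ofReal_natCast, ← ENNReal.ofReal_natCast,
              ← ENNReal.ofReal_div_of_pos (by push_cast; positivity)]
            congr 1
            push_cast
            field_simp
        _ ≤ _ := ENNReal.div_le_div_right hsum _
    have := ge_of_tendsto' hslow hlow
    simp at this
  · refine ⟨1 / 2, (7 : ℝ) ^ (1 / 4 : ℝ), by norm_num, ?_, ?_⟩
    · exact Real.one_lt_rpow (by norm_num) (by norm_num)
    · intro n hn
      rw [quad_iter_deriv_abs μ (by linarith)]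
      have hc := hce n
      set D := ∏ j ∈ Finset.Icc 1 n, (2 * μ * |xo μ j|) with hD
      have hD0 : 0 ≤ D := Finset.prod_nonneg fun j _ => by positivity
      have h7 : 0 < ((7 : ℝ) ^ (1 / 4 : ℝ)) ^ n := by positivity
      have h8 : (((7 : ℝ) ^ (1 / 4 : ℝ)) ^ n) ^ 4 = 7 ^ n := by
        rw [← pow_mul, mul_comm, pow_mul, ← Real.rpow_natCast (7 ^ (1 / 4 : ℝ)) 4,
          ← Real.rpow_mul (by norm_num)]
        norm_num
      have h9 : ((7 : ℝ) ^ (1 / 4 : ℝ)) ^ n ≤ D := by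
        by_contra hlt
        push Not at hlt
        have := pow_lt_pow_left₀ hlt hD0 (by norm_num : (4 : ℕ) ≠ 0)
        linarith
      linarith

end Pool.Agent.R199.CE
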