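import Mathlib
import Pool.Agent.R199.CE.Defs

/-! # Realization of a kneading sequence in the quadratic family (helper784) -/

set_option autoImplicit false

namespace Pool.Agent.R199.CE.RealJob

open Filter Topology

/-- the sign of a letter. -/
def sg (b : Bool) : ℝ := if b = true then 1 else -1

lemma sg_true : sg true = 1 := rfl

lemma sg_false : sg false = -1 := by simp [sg]

lemma sg_sq (b : Bool) : sg b * sg b = 1 := by cases b <;> simp [sg]

lemma abs_sg (b : Bool) : |sg b| = 1 := by cases b <;> simp [sg]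

lemma sg_ne {a b : Bool} (h : a ≠ b) : sg a = - sg b := by
  cases a <;> cases b <;> simp_all [sg]

lemma xo_mem {μ : ℝ} (h0 : 0 ≤ μ) (h2 : μ ≤ 2) (n : ℕ) : |xo μ n| ≤ 1 := by
  induction n with
  | zero => simp [xo]
  | succ n ih =>
    have h1 : (xo μ n) ^ 2 ≤ 1 := by
      have := sq_le_one_iff_abs_le_one (xo μ n)
      exact this.2 ih
    have h3 : 0 ≤ (xo μ n) ^ 2 := sq_nonneg _
    rw [xo, abs_le]
    constructor <;> nlinarith

lemma xo_cont (n : ℕ) : Continuous fun μ : ℝ => xo μ n := by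
  induction n with
  | zero => simp only [xo]; fun_prop
  | succ n ih => simp only [xo]; fun_prop

lemma xo_one (μ : ℝ) : xo μ 1 = 1 := by simp [xo]

/-- Lipschitz estimate along the orbit. -/
lemma xo_lip {μ : ℝ} (h0 : 0 ≤ μ) (h2 : μ ≤ 2) (a b i : ℕ) :
    |xo μ (a + i) - xo μ (b + i)| ≤ 4 ^ i * |xo μ a - xo μ b| := by
  induction i with
  | zero => simp
  | succ i ih =>
    have e : xo μ (a + (i + 1)) - xo μ (b + (i + 1)) =
        - (μ * (xo μ (a + i) + xo μ (b + i)) * (xo μ (a + i) - xo μ (b + i))) := by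
      rw [← add_assoc, ← add_assoc, xo, xo]; ring
    rw [e, abs_neg, abs_mul, abs_mul, abs_of_nonneg h0]
    have h3 : |xo μ (a + i) + xo μ (b + i)| ≤ 2 := by
      refine (abs_add_le _ _).trans ?_
      have := xo_mem h0 h2 (a + i)
      have := xo_mem h0 h2 (b + i)
      linarith
    have h4 : μ * |xo μ (a + i) + xo μ (b + i)| ≤ 4 := by
      have := abs_nonneg (xo μ (a + i) + xo μ (b + i))
      nlinarith
    calc μ * |xo μ (a + i) + xo μ (b + i)| * |xo μ (a + i) - xo μ (b + i)|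
        ≤ 4 * (4 ^ i * |xo μ a - xo μ b|) := by
          refine mul_le_mul h4 ih (abs_nonneg _) (by norm_num)
      _ = 4 ^ (i + 1) * |xo μ a - xo μ b| := by ring

/-- comparison with the critical orbit. -/
lemma xo_cmp {μ : ℝ} (h0 : 0 ≤ μ) (h2 : μ ≤ 2) (m n i : ℕ) (hi : 1 ≤ i) (hin : i ≤ n) :
    |xo μ (m + i) - xo μ i| ≤ 4 ^ n * (xo μ m) ^ 2 := by
  obtain ⟨i, rfl⟩ : ∃ k, i = k + 1 := ⟨i - 1, by omega⟩
  have h := xo_lip h0 h2 (m + 1) 1 i
  rw [show m + 1 + i = m + (i + 1) by ring, show 1 + i = i + 1 by ring] at h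
  refine h.trans ?_
  have e : xo μ (m + 1) - xo μ 1 = - (μ * (xo μ m) ^ 2) := by
    rw [xo_one, xo]; ring
  rw [e, abs_neg, abs_of_nonneg (by positivity)]
  have h3 : (4 : ℝ) ^ (i + 1) ≤ 4 ^ n := pow_le_pow_right₀ (by norm_num) hin
  have h4 : (0 : ℝ) ≤ (xo μ m) ^ 2 := sq_nonneg _
  have h5 : (0 : ℝ) < 4 ^ i := by positivity
  calc (4 : ℝ) ^ i * (μ * (xo μ m) ^ 2) ≤ 4 ^ i * (4 * (xo μ m) ^ 2) := by
        refine mul_le_mul_of_nonneg_left ?_ h5.le
        nlinarith
    _ = 4 ^ (i + 1) * (xo μ m) ^ 2 := by ring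
    _ ≤ 4 ^ n * (xo μ m) ^ 2 := by
        exact mul_le_mul_of_nonneg_right h3 h4

/-- first failure at `n`. -/
def Fail (e : ℕ → Bool) (μ : ℝ) (n : ℕ) : Prop :=
  (∀ i, 1 ≤ i → i < n → 0 < sg (e i) * xo μ i) ∧ sg (e n) * xo μ n ≤ 0

lemma Fail.unique {e : ℕ → Bool} {μ : ℝ} {n n' : ℕ} (h1 : 1 ≤ n) (h1' : 1 ≤ n')
    (h : Fail e μ n) (h' : Fail e μ n') : n = n' := by
  rcases lt_trichotomy n n' with hlt | hlt | hlt
  · exact absurd (h'.1 n h1 hlt) (not_lt.2 h.2)
  · exact hlt
  · exact absurd (h.1 n' h1' hlt) (not_lt.2 h'.2)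

lemma cnt_succ (e : ℕ → Bool) (n : ℕ) : cnt e (n + 1) = cnt e n + if e (n + 1) = true then 1 else 0 := by
  unfold cnt
  rw [← Finset.insert_Icc_right_eq_Icc_add_one (by omega), Finset.filter_insert]
  split_ifs with h
  · rw [Finset.card_insert_of_notMem]
    simp
  · rfl

lemma cnt_add (e : ℕ → Bool) (n r : ℕ) (h : ∀ i, 1 ≤ i → i ≤ r → e (n + i) = e i) :
    cnt e (n + r) = cnt e n + cnt e r := by
  induction r with
  | zero => simp [cnt]
  | succ r ih =>
    rw [← add_assoc, cnt_succ, cnt_succ, ih fun i h1 h2 => h i h1 (by omega), add_assoc n r 1,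
      h (r + 1) (by omega) le_rfl, add_assoc]

/-- periodic orbit pattern. -/
lemma periodic {e : ℕ → Bool} {μ η ν : ℝ} (h0 : 0 ≤ μ) (h2 : μ ≤ 2) {n : ℕ} (hn : 1 ≤ n)
    (hη : 0 < η) (hν1 : 4 ^ (n + 1) * ν ≤ 1 / 2) (hν2 : 4 ^ (n + 1) * ν ^ 2 ≤ η / 2)
    (hs : ∀ i, 1 ≤ i → i < n → η ≤ sg (e i) * xo μ i) (ha : |xo μ n| ≤ ν)
    (hpos : 0 < sg (e n) * xo μ n) (N : ℕ) (hN : 1 ≤ N) :
    0 < sg (e ((N - 1) % n + 1)) * xo μ N := by
  set a := xo μ n with hadef
  have h4 : (0 : ℝ) < 4 ^ n := by positivity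
  have ha0 : 0 ≤ |a| := abs_nonneg a
  have hsq : 4 ^ (n + 1) * a ^ 2 ≤ |a| / 2 := by
    have e1 : a ^ 2 = |a| * |a| := by rw [← sq, sq_abs]
    rw [e1]
    have : (4 : ℝ) ^ (n + 1) * |a| ≤ 1 / 2 := le_trans
      (mul_le_mul_of_nonneg_left ha (by positivity)) hν1
    nlinarith
  have hsq2 : 4 ^ (n + 1) * a ^ 2 ≤ η / 2 := by
    refine le_trans (mul_le_mul_of_nonneg_left ?_ (by positivity)) hν2
    rw [← sq_abs]
    exact pow_le_pow_left₀ ha0 ha 2
  have key : ∀ j : ℕ, |xo μ (j * n)| ≤ 2 * |a| := by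
    intro j
    induction j with
    | zero => simp [xo]
    | succ j ih =>
      have h5 := xo_cmp h0 h2 (j * n) n n hn le_rfl
      rw [← hadef] at h5
      have h6 : (xo μ (j * n)) ^ 2 ≤ 4 * a ^ 2 := by
        rw [← sq_abs, ← sq_abs a]
        have := pow_le_pow_left₀ (abs_nonneg _) ih 2
        linarith
      have h7 : |xo μ (j * n + n) - a| ≤ |a| / 2 := by
        refine h5.trans (le_trans ?_ hsq)
        calc (4 : ℝ) ^ n * (xo μ (j * n)) ^ 2 ≤ 4 ^ n * (4 * a ^ 2) :=
              mul_le_mul_of_nonneg_left h6 h4.le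
          _ = 4 ^ (n + 1) * a ^ 2 := by ring
      have h8 : |xo μ (j * n + n)| ≤ |xo μ (j * n + n) - a| + |a| := by
        have := abs_add_le (xo μ (j * n + n) - a) a
        simpa using this
      rw [add_mul, one_mul]
      linarith
  obtain ⟨j, i, hi1, hin, rfl⟩ : ∃ j i, 1 ≤ i ∧ i ≤ n ∧ N = j * n + i := by
    refine ⟨(N - 1) / n, (N - 1) % n + 1, by omega, Nat.mod_lt _ hn, ?_⟩
    have := Nat.div_add_mod (N - 1) n
    rw [mul_comm] at this
    omega
  have hmod : (j * n + i - 1) % n + 1 = i := by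
    rw [show j * n + i - 1 = (i - 1) + n * j by rw [mul_comm]; omega, Nat.add_mul_mod_self_left,
      Nat.mod_eq_of_lt (by omega)]
    omega
  rw [hmod]
  have h5 := xo_cmp h0 h2 (j * n) n i hi1 hin
  have h6 : (xo μ (j * n)) ^ 2 ≤ 4 * a ^ 2 := by
    rw [← sq_abs, ← sq_abs a]
    have := pow_le_pow_left₀ (abs_nonneg _) (key j) 2
    linarith
  have h7 : |xo μ (j * n + i) - xo μ i| ≤ 4 ^ (n + 1) * a ^ 2 := by
    refine h5.trans ?_
    calc (4 : ℝ) ^ n * (xo μ (j * n)) ^ 2 ≤ 4 ^ n * (4 * a ^ 2) :=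
          mul_le_mul_of_nonneg_left h6 h4.le
      _ = 4 ^ (n + 1) * a ^ 2 := by ring
  have h8 : sg (e i) * xo μ (j * n + i) =
      sg (e i) * xo μ i + sg (e i) * (xo μ (j * n + i) - xo μ i) := by ring
  have h9 : |sg (e i) * (xo μ (j * n + i) - xo μ i)| ≤ 4 ^ (n + 1) * a ^ 2 := by
    rw [abs_mul, abs_sg, one_mul]; exact h7
  have h10 := (abs_le.1 h9).1
  rcases hin.eq_or_lt with rfl | hlt
  · have h11 : sg (e i) * a = |a| := by
      have h12 : |sg (e i) * a| = sg (e i) * a := abs_of_pos hpos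
      rw [← h12, abs_mul, abs_sg, one_mul]
    have h13 : 0 < |a| := by rw [← h11]; exact hpos
    rw [h8, ← hadef, h11]
    linarith
  · have := hs i hi1 hlt
    rw [h8]
    linarith

theorem loc {e : ℕ → Bool} {R : ℕ → ℕ}
    (hR : ∀ n, 1 ≤ n → Agr e n (R n) ∧ Odd (cnt e (R n + 1))) {μ0 : ℝ} {n : ℕ} (hn : 1 ≤ n)
    (hf : Fail e μ0 n) : ∀ᶠ μ in 𝓝 μ0, 0 ≤ μ → μ ≤ 2 →
      ∃ n', 1 ≤ n' ∧ Fail e μ n' ∧ (Odd (cnt e n') ↔ Odd (cnt e n)) := by
  -- a common lower bound
  obtain ⟨η, hη, hη2⟩ : ∃ η : ℝ, 0 < η ∧ ∀ i, 1 ≤ i → i < n → η < sg (e i) * xo μ0 i := by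
    have : ∀ m : ℕ, m ≤ n → ∃ η : ℝ, 0 < η ∧ ∀ i, 1 ≤ i → i < m → η < sg (e i) * xo μ0 i := by
      intro m
      induction m with
      | zero => intro _; exact ⟨1, one_pos, fun i h1 h2 => by omega⟩
      | succ m ih =>
        intro hm
        obtain ⟨η, hη, h⟩ := ih (by omega)
        rcases Nat.eq_zero_or_pos m with rfl | hm0
        · exact ⟨1, one_pos, fun i h1 h2 => by omega⟩
        · have h1 := hf.1 m hm0 (by omega)
          refine ⟨min η (sg (e m) * xo μ0 m / 2), lt_min hη (by linarith), fun i hi1 hi2 => ?_⟩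
          rcases Nat.lt_succ_iff_lt_or_eq.1 hi2 with hlt | rfl
          · exact lt_of_le_of_lt (min_le_left _ _) (h i hi1 hlt)
          · exact lt_of_le_of_lt (min_le_right _ _) (by linarith)
    exact this n le_rfl
  have hev : ∀ᶠ μ in 𝓝 μ0, ∀ i ∈ Finset.Ico 1 n, η < sg (e i) * xo μ i := by
    rw [Finset.eventually_all]
    intro i hi
    rw [Finset.mem_Ico] at hi
    exact (continuous_const.mul (xo_cont i)).continuousAt.eventually
      (lt_mem_nhds (hη2 i hi.1 hi.2))
  by_cases hz : xo μ0 n = 0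
  · -- the critical case
    obtain ⟨ν, hν, hν1, hν2⟩ : ∃ ν : ℝ, 0 < ν ∧ 4 ^ (n + 1) * ν ≤ 1 / 2 ∧
        4 ^ (n + 1) * ν ^ 2 ≤ η / 2 := by
      have h4 : (0 : ℝ) < 4 ^ (n + 1) := by positivity
      refine ⟨min (1 / 2 / 4 ^ (n + 1)) (min 1 (η / 2 / 4 ^ (n + 1))), by positivity, ?_, ?_⟩
      · have := min_le_left (1 / 2 / (4 : ℝ) ^ (n + 1)) (min 1 (η / 2 / 4 ^ (n + 1)))
        rw [mul_comm]
        exact (le_div_iff₀ h4).1 this
      · set ν := min (1 / 2 / (4 : ℝ) ^ (n + 1)) (min 1 (η / 2 / 4 ^ (n + 1))) with hν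
        have hν0 : 0 < ν := by positivity
        have h5 : ν ≤ 1 := (min_le_right _ _).trans (min_le_left _ _)
        have h6 : ν ≤ η / 2 / 4 ^ (n + 1) := (min_le_right _ _).trans (min_le_right _ _)
        have h7 := (le_div_iff₀ h4).1 h6
        have h8 : ν ^ 2 ≤ ν := by nlinarith
        calc (4 : ℝ) ^ (n + 1) * ν ^ 2 ≤ 4 ^ (n + 1) * ν := mul_le_mul_of_nonneg_left h8 h4.le
          _ = ν * 4 ^ (n + 1) := mul_comm _ _
          _ ≤ η / 2 := h7
    have hev2 : ∀ᶠ μ in 𝓝 μ0, |xo μ n| < ν := by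
      have h1 : Tendsto (fun μ => |xo μ n|) (𝓝 μ0) (𝓝 0) := by
        have := ((xo_cont n).abs).tendsto μ0
        simpa [hz] using this
      exact h1.eventually (gt_mem_nhds hν)
    filter_upwards [hev, hev2] with μ h1 h2 h3 h4
    by_cases hs : sg (e n) * xo μ n ≤ 0
    · exact ⟨n, hn, ⟨fun i hi hi' => hη.trans (h1 i (Finset.mem_Ico.2 ⟨hi, hi'⟩)), hs⟩, Iff.rfl⟩
    · have hper := periodic (e := e) h3 h4 hn hη hν1 hν2
        (fun i hi hi' => (h1 i (Finset.mem_Ico.2 ⟨hi, hi'⟩)).le) h2.le (not_le.1 hs)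
      obtain ⟨⟨hagr, hne⟩, hodd⟩ := hR n hn
      set r := R n with hr
      have hpat : ∀ N, 1 ≤ N → N ≤ n + r → e ((N - 1) % n + 1) = e N := by
        intro N
        induction N using Nat.strong_induction_on with
        | _ N ih =>
          intro hN1 hN2
          by_cases hNn : N ≤ n
          · rw [Nat.mod_eq_of_lt (by omega), Nat.sub_add_cancel hN1]
          · have h5 := ih (N - n) (by omega) (by omega) (by omega)
            have h6 := hagr (N - n) (by omega) (by omega)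
            rw [show n + (N - n) = N by omega] at h6
            rw [h6, ← h5, show N - 1 = (N - n - 1) + n by omega, Nat.add_mod_right]
      refine ⟨n + (r + 1), by omega, ⟨fun i hi hi' => ?_, ?_⟩, ?_⟩
      · have h5 := hper i hi
        rwa [hpat i hi (by omega)] at h5
      · have h5 := hper (n + (r + 1)) (by omega)
        have h6 : e ((n + (r + 1) - 1) % n + 1) = e (r + 1) := by
          rw [← hpat (r + 1) (by omega) (by omega),
            show n + (r + 1) - 1 = (r + 1 - 1) + n by omega, Nat.add_mod_right]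
        rw [h6] at h5
        rw [sg_ne hne]
        linarith
      · have h5 : cnt e (n + (r + 1)) = cnt e n + cnt e r +
            if e (n + (r + 1)) = true then 1 else 0 := by
          rw [← add_assoc, cnt_succ, cnt_add e n r hagr]
        have h6 := cnt_succ e r
        rw [h6] at hodd
        rw [h5]
        rcases Bool.eq_false_or_eq_true (e (r + 1)) with h7 | h7
        · have h8 : e (n + (r + 1)) = false := by
            rcases Bool.eq_false_or_eq_true (e (n + (r + 1))) with h9 | h9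
            · exact absurd (h9.trans h7.symm) hne
            · exact h9
          rw [h7] at hodd
          rw [h8]
          simp only [if_true] at hodd
          simp only [Bool.false_eq_true, if_false]
          rw [Nat.odd_iff] at hodd
          rw [Nat.odd_iff, Nat.odd_iff]
          omega
        · have h8 : e (n + (r + 1)) = true := by
            rcases Bool.eq_false_or_eq_true (e (n + (r + 1))) with h9 | h9
            · exact h9
            · exact absurd (h9.trans h7.symm) hne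
          rw [h7] at hodd
          rw [h8]
          simp only [Bool.false_eq_true, if_false] at hodd
          simp only [if_true]
          rw [Nat.odd_iff] at hodd
          rw [Nat.odd_iff, Nat.odd_iff]
          omega
  · have h1 : sg (e n) * xo μ0 n < 0 := by
      refine lt_of_le_of_ne hf.2 ?_
      intro h2
      rcases mul_eq_zero.1 h2 with h3 | h3
      · have := sg_sq (e n)
        rw [h3] at this
        norm_num at this
      · exact hz h3
    have hev2 : ∀ᶠ μ in 𝓝 μ0, sg (e n) * xo μ n < 0 :=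
      (continuous_const.mul (xo_cont n)).continuousAt.eventually (gt_mem_nhds h1)
    filter_upwards [hev, hev2] with μ h2 h3 _ _
    exact ⟨n, hn, ⟨fun i hi hi' => hη.trans (h2 i (Finset.mem_Ico.2 ⟨hi, hi'⟩)), h3.le⟩, Iff.rfl⟩

theorem jobReal : JobReal := by
  intro e R he1 he2 hex hR
  by_contra hcon
  push Not at hcon
  -- every parameter has a first failure
  have hfail1 : Fail e 1 2 := by
    refine ⟨fun i h1 h2 => ?_, ?_⟩
    · have : i = 1 := by omega
      subst this
      rw [he1, xo_one, sg_true]; norm_num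
    · rw [he2]
      have : xo 1 2 = 0 := by simp [xo]
      rw [this]; simp
  obtain ⟨m, hm3, hmt, hmin⟩ : ∃ m, 3 ≤ m ∧ e m = true ∧ ∀ i, 2 ≤ i → i < m → e i = false := by
    classical
    have hP : ∃ n, 3 ≤ n ∧ e n = true := hex
    refine ⟨Nat.find hP, (Nat.find_spec hP).1, (Nat.find_spec hP).2, fun i h1 h2 => ?_⟩
    rcases Nat.eq_or_lt_of_le h1 with rfl | h3
    · exact he2
    · have h4 := Nat.find_min hP h2
      rcases Bool.eq_false_or_eq_true (e i) with h5 | h5
      · exact absurd ⟨h3, h5⟩ h4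
      · exact h5
  have hx2 : ∀ i, 2 ≤ i → xo 2 i = -1 := by
    intro i hi
    obtain ⟨k, rfl⟩ : ∃ k, i = k + 2 := ⟨i - 2, by omega⟩
    induction k with
    | zero =>
      rw [show 0 + 2 = (0 + 1) + 1 by rfl, xo, xo, xo]
      norm_num
    | succ k ih =>
      rw [show k + 1 + 2 = (k + 2) + 1 by ring, xo, ih (by omega)]
      norm_num
  have hfail2 : Fail e 2 m := by
    refine ⟨fun i h1 h2 => ?_, ?_⟩
    · rcases Nat.eq_or_lt_of_le h1 with rfl | h3
      · rw [he1, xo_one, sg_true]; norm_num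
      · rw [hmin i h3 h2, hx2 i h3, sg_false]; norm_num
    · rw [hmt, hx2 m (by omega), sg_true]; norm_num
  have hc1 : Odd (cnt e 2) := by
    have h1 := cnt_succ e 1
    have h2 := cnt_succ e 0
    have h3 : cnt e 0 = 0 := by simp [cnt]
    rw [h3] at h2
    norm_num at h1 h2
    rw [he1] at h2
    rw [he2] at h1
    simp only [if_true, Bool.false_eq_true, if_false] at h1 h2
    rw [h1, h2]
    exact odd_one
  have hc2 : ¬ Odd (cnt e m) := by
    have key : ∀ k, k + 2 < m → cnt e (k + 2) = 1 := by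
      intro k
      induction k with
      | zero =>
        intro _
        have h1 := cnt_succ e 1
        have h2 := cnt_succ e 0
        have h3 : cnt e 0 = 0 := by simp [cnt]
        rw [h3] at h2
        norm_num at h1 h2
        rw [he1] at h2
        rw [he2] at h1
        simp only [if_true, Bool.false_eq_true, if_false] at h1 h2
        rw [Nat.zero_add, h1, h2]
      | succ k ih =>
        intro hk
        rw [show k + 1 + 2 = (k + 2) + 1 by ring, cnt_succ, ih (by omega),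
          hmin (k + 2 + 1) (by omega) (by omega)]
        simp
    obtain ⟨k, rfl⟩ : ∃ k, m = k + 2 + 1 := ⟨m - 3, by omega⟩
    rw [cnt_succ, key k (by omega), hmt]
    simp only [if_true]
    decide
  have hall : ∀ μ : ℝ, 1 ≤ μ → μ ≤ 2 → ∃ n, 1 ≤ n ∧ Fail e μ n := by
    intro μ h1 h2
    rcases h1.eq_or_lt with rfl | h1
    · exact ⟨2, by norm_num, hfail1⟩
    rcases h2.eq_or_lt with rfl | h2
    · exact ⟨m, by omega, hfail2⟩
    obtain ⟨n, hn, hnn⟩ := hcon μ h1 h2
    classical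
    have hP : ∃ n, 1 ≤ n ∧ sg (e n) * xo μ n ≤ 0 := by
      refine ⟨n, hn, ?_⟩
      by_contra hpos
      rw [not_le] at hpos
      rcases Bool.eq_false_or_eq_true (e n) with h5 | h5
      · rw [h5, sg_true, one_mul] at hpos
        obtain ⟨h6, h7⟩ := hnn (fun _ => hpos)
        rw [h5] at h6
        exact absurd h6 (by decide)
      · rw [h5, sg_false] at hpos
        obtain ⟨h6, h7⟩ := hnn (fun h8 => by rw [h5] at h8; exact absurd h8 (by decide))
        linarith
    refine ⟨Nat.find hP, (Nat.find_spec hP).1, fun i hi1 hi2 => ?_, (Nat.find_spec hP).2⟩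
    have h4 := Nat.find_min hP hi2
    by_contra h5
    exact h4 ⟨hi1, not_lt.1 h5⟩
  -- local constancy
  let f : Set.Icc (1 : ℝ) 2 → Prop := fun μ => ∃ n, 1 ≤ n ∧ Fail e μ n ∧ Odd (cnt e n)
  have hf : IsLocallyConstant f := by
    rw [IsLocallyConstant.iff_eventually_eq]
    rintro ⟨μ0, hμ0⟩
    obtain ⟨n, hn, hfn⟩ := hall μ0 hμ0.1 hμ0.2
    have h1 := loc hR hn hfn
    have h2 : Tendsto (fun μ : Set.Icc (1 : ℝ) 2 => (μ : ℝ)) (𝓝 ⟨μ0, hμ0⟩) (𝓝 μ0) :=
      continuous_subtype_val.tendsto _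
    filter_upwards [h2.eventually h1] with μ h3
    obtain ⟨n', hn', hfn', hpar⟩ := h3 (by linarith [μ.2.1]) μ.2.2
    apply propext
    constructor
    · rintro ⟨k, hk, hfk, hok⟩
      obtain rfl := Fail.unique hk hn' hfk hfn'
      exact ⟨n, hn, hfn, hpar.1 hok⟩
    · rintro ⟨k, hk, hfk, hok⟩
      obtain rfl := Fail.unique hk hn hfk hfn
      exact ⟨n', hn', hfn', hpar.2 hok⟩
  have hpre : PreconnectedSpace (Set.Icc (1 : ℝ) 2) :=
    Subtype.preconnectedSpace isPreconnected_Icc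
  have heq := hf.apply_eq_of_preconnectedSpace ⟨1, by norm_num⟩ ⟨2, by norm_num⟩
  have hf1 : f ⟨1, by norm_num⟩ := ⟨2, by norm_num, hfail1, hc1⟩
  rw [heq] at hf1
  obtain ⟨k, hk, hfk, hok⟩ := hf1
  obtain rfl := Fail.unique hk (by omega) hfk hfail2
  exact hc2 hok

end Pool.Agent.R199.CE.RealJob
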